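import Pool.Agent.H33.HH.GSM
import Pool.Agent.H37.CV.All

/-!
# SEC: the constants in the quadratic form do not matter
-/

set_option autoImplicit false

open NumberField Complex Filter Topology MeasureTheory
open scoped ContDiff nonZeroDivisors

namespace Pool.Agent.H33.HH

open Pool.Agent.H28.RC Pool.Agent.H37.CV

section aux

variable {K : Type} [Field K] [NumberField K]

open scoped Classical in
theorem gg_empty (S T : Finset (PrI K)) : gg np ∅ ∅ S T = nS np (S ∩ T) := by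
  unfold gg nS
  simp only [Finset.inter_empty, Finset.prod_empty, one_mul]
  refine Finset.prod_congr ?_ fun _ _ => rfl
  ext x
  simp [Finset.mem_inter]

theorem sum_fS (U : Finset (PrI K)) : ∑ E ∈ U.powerset, fS np E = nS np U := by
  unfold fS nS
  rw [← Finset.prod_add_one (f := fun P : PrI K => np P - 1)]
  refine Finset.prod_congr rfl fun p _ => ?_
  ring

open scoped Classical in
theorem Vst_add (c c' : ℝ) (S T : Finset (PrI K)) :
    Vst (c + c') S T = Vst c S T + c' * nS np (S ∩ T) := by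
  unfold Vst
  have h : c' * nS np (S ∩ T) = ∑ E ∈ (S ∩ T).powerset, c' * fS np E := by
    rw [← Finset.mul_sum, sum_fS]
  rw [h, ← Finset.sum_add_distrib]
  refine Finset.sum_congr rfl fun E _ => ?_
  ring

theorem np_ge_two (p : PrI K) : 2 ≤ np p := by
  unfold np nm
  have h1 : Ideal.absNorm p.1 ≠ 0 := by
    rw [Ne, Ideal.absNorm_eq_zero_iff]
    exact p.2.2
  have h2 : Ideal.absNorm p.1 ≠ 1 := by
    rw [Ne, Ideal.absNorm_eq_one_iff]
    exact p.2.1.ne_top
  have : 2 ≤ Ideal.absNorm p.1 := by omega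
  exact_mod_cast this

end aux

theorem rk_pos (K : Type) [Field K] [NumberField K] [IQ K] (hN : T_NRM) (P : ℝ) :
    0 < rk K P := by
  obtain ⟨-, hw, -⟩ := hN K
  unfold rk rh
  have h1 : 0 < hc K := by
    unfold hc
    exact_mod_cast NumberField.classNumber_pos K
  have h2 : 0 < sd K := by
    unfold sd
    refine Real.sqrt_pos.mpr (abs_pos.mpr ?_)
    exact_mod_cast NumberField.discr_ne_zero K
  refine mul_pos (by positivity) (Finset.prod_pos fun p _ => ?_)
  have := np_ge_two p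
  have h3 : 1 / np p ≤ 1 / 2 := one_div_le_one_div_of_le (by norm_num) this
  linarith

open scoped Classical in
theorem pf_SEC (hN : T_NRM) (h1 : T_GLk) : T_SEC := by
  intro K _ _ _ P θ c ε hθ hε
  obtain ⟨C, hC, hG, -, -⟩ := h1 K P
  have hr := rk_pos K hN P
  -- GS tends to infinity
  have hlog : Tendsto (fun Q : ℝ => rk K P * (θ * Real.log Q) - C) atTop atTop := by
    refine tendsto_atTop_add_const_right _ (-C) ?_
    exact (Real.tendsto_log_atTop.const_mul_atTop hθ).const_mul_atTop hr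
  have hev := hlog.eventually_ge_atTop (rk K P * |c| / ε + 1)
  obtain ⟨q, hq⟩ := eventually_atTop.1 (hev.and (eventually_ge_atTop 1))
  refine ⟨q, fun Q hQ => ?_⟩
  obtain ⟨hQ2, hQ1⟩ := hq Q hQ
  have hQ0 : 0 < Q := by linarith
  have hy : 1 ≤ Q ^ θ := Real.one_le_rpow hQ1 hθ.le
  have hG' := hG (Q ^ θ) hy
  rw [Real.log_rpow hQ0] at hG'
  have hGS : rk K P * |c| / ε + 1 ≤ GS np (AP K P (Q ^ θ)) (Q ^ θ) := by
    have := (abs_le.mp hG').1
    linarith
  obtain ⟨hm, -⟩ := a_CM (PrI K) np (AP K P (Q ^ θ)) (Q ^ θ) np_ge_two hy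
  have e1 : rk K P * (∑ S ∈ DP K P (Q ^ θ), ∑ T ∈ DP K P (Q ^ θ), lm K P (Q ^ θ) S *
      lm K P (Q ^ θ) T * (Vst (Real.log Q + c) S T / (nS np S * nS np T))) - Vq K P θ Q =
      rk K P * c * (GS np (AP K P (Q ^ θ)) (Q ^ θ))⁻¹ := by
    rw [← hm]
    have e0 : (∑ S ∈ DP K P (Q ^ θ), ∑ T ∈ DP K P (Q ^ θ), lm K P (Q ^ θ) S *
        lm K P (Q ^ θ) T * (Vst (Real.log Q + c) S T / (nS np S * nS np T))) =
        (∑ S ∈ DP K P (Q ^ θ), ∑ T ∈ DP K P (Q ^ θ), lm K P (Q ^ θ) S *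
          lm K P (Q ^ θ) T * (Vst (Real.log Q) S T / (nS np S * nS np T))) +
        c * ∑ S ∈ DS np (AP K P (Q ^ θ)) (Q ^ θ), ∑ T ∈ DS np (AP K P (Q ^ θ)) (Q ^ θ),
          xS np (AP K P (Q ^ θ)) (Q ^ θ) S * xS np (AP K P (Q ^ θ)) (Q ^ θ) T *
            (gg np ∅ ∅ S T / (nS np S * nS np T)) := by
      rw [Finset.mul_sum, DP, ← Finset.sum_add_distrib]
      refine Finset.sum_congr rfl fun S _ => ?_
      rw [Finset.mul_sum, ← Finset.sum_add_distrib]
      refine Finset.sum_congr rfl fun T _ => ?_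
      rw [Vst_add, gg_empty]
      unfold lm
      ring
    rw [e0]
    unfold Vq
    ring
  rw [e1]
  have hGpos : 0 < GS np (AP K P (Q ^ θ)) (Q ^ θ) := by
    have : 0 ≤ rk K P * |c| / ε := by positivity
    linarith
  rw [abs_mul, abs_mul, abs_of_pos hr, abs_of_pos (inv_pos.mpr hGpos), ← div_eq_mul_inv,
    div_le_iff₀ hGpos]
  have h2 : rk K P * |c| / ε * ε ≤ GS np (AP K P (Q ^ θ)) (Q ^ θ) * ε :=
    mul_le_mul_of_nonneg_right (by linarith) hε.le
  rw [div_mul_cancel₀ _ hε.ne'] at h2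
  linarith

end Pool.Agent.H33.HH
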