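import Pool.Agent.H33.HH.TC

/-!
# The second moment: assembly (MP_347b49_nt)
-/

set_option autoImplicit false

open NumberField Complex Filter Topology MeasureTheory
open scoped ContDiff nonZeroDivisors

namespace Pool.Agent.H33.HH

open Pool.Agent.H28.RC Pool.Agent.H37.CV

noncomputable section

section sums

variable {K : Type} [Field K] [NumberField K]

theorem fin_nm (x : ℝ) : {I : NI K | nm I.1 < x}.Finite := by
  have h : {I : Ideal (𝓞 K) | Ideal.absNorm I ≤ ⌈x⌉₊}.Finite :=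
    Ideal.finite_setOfPred_absNorm_le ⌈x⌉₊
  refine Set.Finite.of_finite_image (f := Subtype.val) (h.subset ?_) Subtype.val_injective.injOn
  rintro _ ⟨I, hI, rfl⟩
  have h1 : nm I.1 < x := hI
  have h2 : ((Ideal.absNorm I.1 : ℕ) : ℝ) < (⌈x⌉₊ : ℝ) := lt_of_lt_of_le h1 (Nat.le_ceil x)
  exact (Nat.cast_lt.mp h2).le

theorem sumC_summable {P X : ℝ} {f : Ideal (𝓞 K) → ℝ} (hf : ∀ I, X ≤ nm I → f I = 0) :
    Summable (fun I : NI K => open scoped Classical in if Cp P I.1 then f I.1 else 0) := by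
  classical
  refine summable_of_hasFiniteSupport ((fin_nm (K := K) X).subset ?_)
  intro I hI
  by_contra h
  have h' : X ≤ nm I.1 := not_lt.mp h
  apply hI
  show (if Cp P I.1 then f I.1 else 0) = 0
  rw [hf _ h']
  simp

theorem sumC_add {P X : ℝ} {f g : Ideal (𝓞 K) → ℝ} (hf : ∀ I, X ≤ nm I → f I = 0)
    (hg : ∀ I, X ≤ nm I → g I = 0) :
    sumC P (fun I => f I + g I) = sumC P f + sumC P g := by
  classical
  unfold sumC
  rw [← (sumC_summable (P := P) hf).tsum_add (sumC_summable (P := P) hg)]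
  refine tsum_congr fun I => ?_
  by_cases h : Cp P I.1 <;> simp [h]

theorem sumC_mul {P c : ℝ} {f : Ideal (𝓞 K) → ℝ} :
    sumC P (fun I => c * f I) = c * sumC P f := by
  classical
  unfold sumC
  rw [← tsum_mul_left]
  refine tsum_congr fun I => ?_
  by_cases h : Cp P I.1 <;> simp [h]

theorem sumC_sum {ι : Type} (s : Finset ι) {P X : ℝ} {f : ι → Ideal (𝓞 K) → ℝ}
    (hf : ∀ i I, X ≤ nm I → f i I = 0) :
    sumC P (fun I => ∑ i ∈ s, f i I) = ∑ i ∈ s, sumC P (f i) := by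
  classical
  unfold sumC
  rw [← Summable.tsum_finsetSum (fun i _ => sumC_summable (P := P) (hf i))]
  refine tsum_congr fun I => ?_
  by_cases h : Cp P I.1 <;> simp [h]

theorem sumC_congr {P : ℝ} {f g : Ideal (𝓞 K) → ℝ} (h : ∀ I, I ≠ ⊥ → Cp P I → f I = g I) :
    sumC P f = sumC P g := by
  classical
  unfold sumC
  refine tsum_congr fun I => ?_
  by_cases h1 : Cp P I.1
  · simp [h1, h I.1 I.2 h1]
  · simp [h1]

theorem sumC_comm {P X : ℝ} {f : Ideal (𝓞 K) → Ideal (𝓞 K) → ℝ}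
    (h1 : ∀ I J, X ≤ nm I → f I J = 0) (h2 : ∀ I J, X ≤ nm J → f I J = 0) :
    sumC P (fun I => sumC P (fun J => f I J)) = sumC P (fun J => sumC P (fun I => f I J)) := by
  classical
  unfold sumC
  have hs : Summable (Function.uncurry fun (I J : NI K) =>
      if Cp P I.1 then (if Cp P J.1 then f I.1 J.1 else 0) else 0) := by
    refine summable_of_hasFiniteSupport
      (((fin_nm (K := K) X).prod (fin_nm (K := K) X)).subset ?_)
    rintro ⟨I, J⟩ hIJ
    refine ⟨?_, ?_⟩
    · by_contra h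
      apply hIJ
      show (if Cp P I.1 then (if Cp P J.1 then f I.1 J.1 else 0) else 0) = 0
      rw [h1 _ _ (not_lt.mp h)]
      simp
    · by_contra h
      apply hIJ
      show (if Cp P I.1 then (if Cp P J.1 then f I.1 J.1 else 0) else 0) = 0
      rw [h2 _ _ (not_lt.mp h)]
      simp
  have e1 : ∀ I : NI K, (if Cp P I.1 then ∑' J : NI K, (if Cp P J.1 then f I.1 J.1 else 0)
      else 0) = ∑' J : NI K, (if Cp P I.1 then (if Cp P J.1 then f I.1 J.1 else 0) else 0) := by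
    intro I
    by_cases h : Cp P I.1 <;> simp [h]
  have e2 : ∀ J : NI K, (if Cp P J.1 then ∑' I : NI K, (if Cp P I.1 then f I.1 J.1 else 0)
      else 0) = ∑' I : NI K, (if Cp P I.1 then (if Cp P J.1 then f I.1 J.1 else 0) else 0) := by
    intro J
    by_cases h : Cp P J.1 <;> simp [h]
  simp_rw [e1, e2]
  exact hs.tsum_comm.symm

/-- the diagonal sum -/
def Dd (P Z : ℝ) (G : ℝ → ℝ) (S T : Finset (PrI K)) : ℝ :=
  sumC P fun m => sumC P fun n => open scoped Classical in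
    if idS S * m = idS T * n then (nS np T * nm n)⁻¹ * (G (nm m / Z) * G (nm n / Z)) else 0

theorem G_zero {G : ℝ → ℝ} (hG : IsG G) {Z : ℝ} (hZ : 0 < Z) {I : Ideal (𝓞 K)}
    (h : 3 * Z ≤ nm I) : G (nm I / Z) = 0 := hG.high _ (by rw [le_div_iff₀ hZ]; exact h)

theorem nm_mul (I J : Ideal (𝓞 K)) : nm (I * J) = nm I * nm J := by
  unfold nm
  rw [map_mul]
  push_cast
  ring

theorem Dd_symm {P Z : ℝ} (hZ : 0 < Z) {G : ℝ → ℝ} (hG : IsG G) {S T : Finset (PrI K)}
    (hS : nm (idS S) = nS np S) (hT : nm (idS T) = nS np T) :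
    Dd P Z G T S = Dd P Z G S T := by
  classical
  unfold Dd
  rw [sumC_comm (P := P) (X := 3 * Z)]
  · refine sumC_congr fun m _ _ => sumC_congr fun n _ _ => ?_
    by_cases h : idS S * m = idS T * n
    · rw [if_pos h, if_pos h.symm]
      have h1 : nS np S * nm m = nS np T * nm n := by
        rw [← hS, ← hT, ← nm_mul, ← nm_mul, h]
      rw [h1]
      ring
    · rw [if_neg h, if_neg fun h' => h h'.symm]
  · intro I J h
    rw [G_zero hG hZ h]
    simp
  · intro I J h
    rw [G_zero hG hZ h]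
    simp

theorem Nab_add {P Z Q : ℝ} (hZ : 0 < Z) {G : ℝ → ℝ} (hG : IsG G) (k : Ideal (𝓞 K))
    (S : Finset (PrI K)) (b : Ideal (𝓞 K)) (f g : ℝ → ℝ → ℝ) :
    Nab P Z Q G k S b (fun x t => f x t + g x t) = Nab P Z Q G k S b f + Nab P Z Q G k S b g := by
  unfold Nab
  rw [← mul_add]
  congr 1
  rw [← sumC_add (X := 3 * Z)]
  · refine sumC_congr fun n _ _ => ?_
    rw [← mul_add, ← Finset.sum_add_distrib]
    congr 1
    refine Finset.sum_congr rfl fun R₁ _ => ?_
    rw [← Finset.sum_add_distrib]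
    refine Finset.sum_congr rfl fun R₀ _ => ?_
    ring
  · intro I h
    rw [G_zero hG hZ h, zero_mul]
  · intro I h
    rw [G_zero hG hZ h, zero_mul]

theorem SM_eq {P y Z Q : ℝ} (hQ : 0 < Q) {W G : ℝ → ℝ} (hW : IsW W) (k : Ideal (𝓞 K)) :
    SM P y Z Q W G k = ∑ S ∈ DP K P y, ∑ T ∈ DP K P y, lm K P y S * lm K P y T *
      ((nS np S * nS np T) ^ (-(1 / 2) : ℝ) * Bab P Z Q W G k (idS S) (idS T)) := by
  have h0 : ∀ (I : Ideal (𝓞 K)), Q ≤ nm I → W (nm I / Q) = 0 := fun I h =>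
    hW.high _ (by rw [le_div_iff₀ hQ, one_mul]; exact h)
  unfold SM Qf
  have e1 : ∀ q : Ideal (𝓞 K), W (nm q / Q) * nm q *
      (∑ S ∈ DP K P y, ∑ T ∈ DP K P y, lm K P y S * lm K P y T *
        (nS np S * nS np T) ^ (-(1 / 2) : ℝ) * Qab P Z G (k * q) (idS S) (idS T)) =
      ∑ S ∈ DP K P y, ∑ T ∈ DP K P y, lm K P y S * lm K P y T *
        (nS np S * nS np T) ^ (-(1 / 2) : ℝ) *
          (W (nm q / Q) * nm q * Qab P Z G (k * q) (idS S) (idS T)) := by
    intro q
    rw [Finset.mul_sum]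
    refine Finset.sum_congr rfl fun S _ => ?_
    rw [Finset.mul_sum]
    refine Finset.sum_congr rfl fun T _ => ?_
    ring
  simp_rw [e1]
  have hz : ∀ (S T : Finset (PrI K)) (I : Ideal (𝓞 K)), Q ≤ nm I → lm K P y S * lm K P y T *
        (nS np S * nS np T) ^ (-(1 / 2) : ℝ) *
          (W (nm I / Q) * nm I * Qab P Z G (k * I) (idS S) (idS T)) = 0 := by
    intro S T I h
    rw [h0 I h]
    ring
  refine (sumC_sum (X := Q) (DP K P y) (fun S I h => Finset.sum_eq_zero fun T _ => hz S T I h)).trans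
    ?_
  refine Finset.sum_congr rfl fun S _ => ?_
  refine (sumC_sum (X := Q) (DP K P y) (fun T I h => hz S T I h)).trans ?_
  refine Finset.sum_congr rfl fun T _ => ?_
  rw [sumC_mul]
  unfold Bab
  ring

open scoped Classical in
theorem Er_nonneg {Q δ : ℝ} (hQ : 0 ≤ Q) (S T : Finset (PrI K)) : 0 ≤ Er Q δ S T := by
  unfold Er
  have h : ∀ X : Finset (PrI K), 0 ≤ nS np X := fun X =>
    Finset.prod_nonneg fun p _ => by unfold np nm; positivity
  have h1 := h S
  have h2 := h T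
  have h3 := h (S ∩ T)
  positivity

theorem Er_mono {Q δ δ' : ℝ} (hQ : 1 ≤ Q) (h : δ' ≤ δ) (S T : Finset (PrI K)) :
    Er Q δ S T ≤ Er Q δ' S T := by
  unfold Er
  have h0 : ∀ X : Finset (PrI K), 0 ≤ nS np X := fun X =>
    Finset.prod_nonneg fun p _ => by unfold np nm; positivity
  refine mul_le_mul_of_nonneg_right
    (Real.rpow_le_rpow_of_exponent_le hQ (by linarith)) ?_
  exact div_nonneg (h0 _) (mul_nonneg (h0 _) (h0 _))

theorem Er_symm {Q δ : ℝ} (S T : Finset (PrI K)) : Er Q δ T S = Er Q δ S T := by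
  classical
  unfold Er
  rw [Finset.inter_comm, mul_comm (nS np T)]

theorem Vst_symm {c : ℝ} (S T : Finset (PrI K)) : Vst c T S = Vst c S T := by
  classical
  unfold Vst
  rw [Finset.inter_comm]
  refine Finset.sum_congr rfl fun E _ => ?_
  ring

end sums

end

end Pool.Agent.H33.HH
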