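import Pool.Agent.H33.HH.SMF

/-!
# GSM: smooth sums over the `γ`
-/

set_option autoImplicit false

open NumberField Complex Filter Topology MeasureTheory
open scoped ContDiff nonZeroDivisors

namespace Pool.Agent.H33.HH

open Pool.Agent.H28.RC Pool.Agent.H37.CV

section aux

variable {K : Type} [Field K] [NumberField K]

theorem nm_idS (A : Finset (PrI K)) : nm (idS A) = nS np A := by
  unfold idS nS
  induction A using Finset.induction_on with
  | empty =>
    simp only [Finset.prod_empty]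
    unfold nm
    rw [Ideal.one_eq_top, Ideal.absNorm_top]
    simp
  | insert p A hp ih =>
    rw [Finset.prod_insert hp, Finset.prod_insert hp, nm_mul, ih]
    rfl

theorem nm_ge_one {I : Ideal (𝓞 K)} (h : I ≠ ⊥) : 1 ≤ nm I := by
  unfold nm
  have : Ideal.absNorm I ≠ 0 := by
    rw [Ne, Ideal.absNorm_eq_zero_iff]
    exact h
  exact_mod_cast Nat.one_le_iff_ne_zero.mpr this

theorem idS_ne_bot (A : Finset (PrI K)) : idS A ≠ ⊥ := by
  unfold idS
  exact Finset.prod_ne_zero_iff.mpr fun p _ => p.2.2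

theorem nS_ge_one (A : Finset (PrI K)) : 1 ≤ nS np A := by
  rw [← nm_idS]
  exact nm_ge_one (idS_ne_bot A)

end aux

open scoped Classical in
theorem pf_GSM (h1 : T_GRA) (h2 : T_GRB) (h3 : T_GRC) (h4 : T_LAT) (h5 : T_IDF) : T_GSM := by
  intro K _ _ _ P j hSP hj
  obtain ⟨C0, hC0, hL⟩ := h4 K j hj
  set N := nS np (SP K P) with hN
  have hN1 : 1 ≤ N := nS_ge_one _
  refine ⟨∑ A ∈ (SP K P).powerset, ∑ B ∈ (SP K P).powerset, C0 * N ^ ((j : ℝ) / 2 - 1),
    ?_, ?_⟩
  · exact Finset.sum_nonneg fun _ _ => Finset.sum_nonneg fun _ _ => by positivity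
  intro y hy S hS b k l hb hbc hk hl R M F hR hcond hF hF0 hFM
  obtain ⟨ha0, hac, han, hS1, -, -, -, -⟩ := h5 K P y hy S hS
  have hk0 : k ≠ ⊥ := hk.1
  have hL0 : k * l ≠ ⊥ := by
    rw [Ne, Ideal.mul_eq_bot]
    tauto
  have hb1 := nm_ge_one hb
  have hk1 := nm_ge_one hk0
  have hl1 := nm_ge_one hl
  have hM : 0 ≤ M := (norm_nonneg _).trans (hFM 0)
  have hD : 0 < nS np S * nm k * nm l := by positivity
  set D := nS np S * nm k * nm l with hDdef
  set q := R ^ 2 * nm b / D with hq
  have hq0 : 0 < q := by positivity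
  obtain ⟨hG1, hG2⟩ := h3 K P y hy S hS b k l hb hbc hk hl
  rw [h1 K P R F (idS S) b (k * l) hSP hR hF0 ha0 hb hL0, ← hG1]
  -- one term
  have key : ∀ A ∈ (SP K P).powerset, ∀ B ∈ (SP K P).powerset,
      |(∑' γ : {γ : K // γ ∈ qf (idS A * idS S) b ∧ γ - 1 ∈ qf (idS B * (k * l)) b},
        F ((em K γ.1 - 1) / R)) -
      (if idS A * idS S ⊔ idS B * (k * l) ∣ b then
        nm (idS A * idS S ⊔ idS B * (k * l)) / (nS np A * nS np B) else 0) * (2 / sd K) *
        (nm b / D) * (R ^ 2 * ∫ z, F z)| ≤ C0 * N ^ ((j : ℝ) / 2 - 1) * M * q ^ (1 - (j : ℝ) / 2) := by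
    intro A hA B hB
    set c := idS A * idS S with hc
    set d := idS B * (k * l) with hd
    have hc0 : c ≠ ⊥ := by
      rw [hc, Ne, Ideal.mul_eq_bot]
      have := idS_ne_bot A
      tauto
    have hd0 : d ≠ ⊥ := by
      rw [hd, Ne, Ideal.mul_eq_bot]
      have := idS_ne_bot B
      tauto
    obtain ⟨g1, g2, g3, g4⟩ := h2 K b c d hb hc0 hd0
    by_cases hdvd : c ⊔ d ∣ b
    · rw [if_pos hdvd]
      obtain ⟨γ₀, hγ₀⟩ := g1 hdvd
      have hdis := hG2 A hA B hB hdvd
      set J := qf (c ⊓ d) b with hJ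
      set n : ℝ := ((FractionalIdeal.absNorm J : ℚ) : ℝ) with hn
      have hX0 : c ⊔ d ≠ ⊥ := fun h => hc0 (by
        rw [eq_bot_iff, ← h]
        exact le_sup_left)
      have hX1 := nm_ge_one hX0
      have hA1 := nS_ge_one A
      have hB1 := nS_ge_one B
      have e1 : n * (nm b * nm (c ⊔ d)) = nS np A * nS np B * D := by
        rw [g4, hc, hd, nm_mul, nm_mul, nm_mul, nm_idS, nm_idS, nm_idS, hDdef]
        ring
      have hn0 : 0 < n := by
        by_contra h
        have h' : n ≤ 0 := not_lt.mp h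
        have h2 : 0 < nS np A * nS np B * D := by positivity
        have h3 : n * (nm b * nm (c ⊔ d)) ≤ 0 :=
          mul_nonpos_of_nonpos_of_nonneg h' (by positivity)
        linarith
      have hAB : nS np A * nS np B ≤ N := by
        have e2 : nS np A * nS np B = nS np (A ∪ B) := by
          unfold nS
          rw [Finset.prod_union hdis]
        rw [e2, hN]
        unfold nS
        refine Finset.prod_le_prod_of_subset_of_one_le ?_ ?_ ?_
        · exact Finset.union_subset (Finset.mem_powerset.mp hA) (Finset.mem_powerset.mp hB)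
        · intro p _
          exact zero_le_one.trans (nm_ge_one p.2.2)
        · intro p _ _
          exact nm_ge_one p.2.2
      have e3 : n * nm b ≤ N * D := by
        calc n * nm b ≤ n * (nm b * nm (c ⊔ d)) := by
              refine mul_le_mul_of_nonneg_left ?_ hn0.le
              nlinarith
          _ = nS np A * nS np B * D := e1
          _ ≤ N * D := mul_le_mul_of_nonneg_right hAB hD.le
      have hnR : n ≤ R ^ 2 := by
        have : n * nm b ≤ R ^ 2 * nm b := e3.trans hcond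
        exact le_of_mul_le_mul_right this (by linarith)
      -- the sum
      let e : {γ : K // γ ∈ qf c b ∧ γ - 1 ∈ qf d b} ≃ {x : K // x ∈ J} :=
        { toFun := fun γ => ⟨γ.1 - γ₀, (hγ₀ γ.1).1 γ.2⟩
          invFun := fun x => ⟨x.1 + γ₀, (hγ₀ _).2 (by rw [add_sub_cancel_right]; exact x.2)⟩
          left_inv := fun γ => Subtype.ext (by simp)
          right_inv := fun x => Subtype.ext (by simp) }
      have e4 : (∑' γ : {γ : K // γ ∈ qf c b ∧ γ - 1 ∈ qf d b}, F ((em K γ.1 - 1) / R)) =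
          ∑' x : {x : K // x ∈ J}, F ((em K x.1 - (1 - em K γ₀)) / R) := by
        rw [← e.tsum_eq]
        refine tsum_congr fun γ => ?_
        congr 2
        show em K γ.1 - 1 = em K (γ.1 - γ₀) - (1 - em K γ₀)
        rw [map_sub]
        ring
      have h6 := hL J (1 - em K γ₀) R M F g3 hR hnR hF hF0 hFM
      rw [e4]
      have e5 : nm (c ⊔ d) / (nS np A * nS np B) * (2 / sd K) * (nm b / D) * (R ^ 2 * ∫ z, F z) =
          2 * R ^ 2 / (sd K * n) * ∫ z, F z := by
        have e6 : nm (c ⊔ d) / (nS np A * nS np B) * (nm b / D) = 1 / n := by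
          rw [div_mul_div_comm, div_eq_div_iff (by positivity) hn0.ne']
          linarith
        calc nm (c ⊔ d) / (nS np A * nS np B) * (2 / sd K) * (nm b / D) * (R ^ 2 * ∫ z, F z) =
            (nm (c ⊔ d) / (nS np A * nS np B) * (nm b / D)) * (2 / sd K) * (R ^ 2 * ∫ z, F z) := by
              ring
          _ = _ := by
            rw [e6]
            ring
      rw [e5]
      refine h6.trans ?_
      have e7 : q / N ≤ R ^ 2 / n := by
        rw [hq, div_div, div_le_div_iff₀ (by positivity) hn0]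
        nlinarith [sq_nonneg R, mul_le_mul_of_nonneg_left e3 (sq_nonneg R)]
      have e8 : (R ^ 2 / n) ^ (1 - (j : ℝ) / 2) ≤ (q / N) ^ (1 - (j : ℝ) / 2) := by
        refine Real.rpow_le_rpow_of_nonpos (by positivity) e7 ?_
        have : (2 : ℝ) ≤ j := by exact_mod_cast hj
        linarith
      have e9 : (q / N) ^ (1 - (j : ℝ) / 2) = q ^ (1 - (j : ℝ) / 2) * N ^ ((j : ℝ) / 2 - 1) := by
        rw [Real.div_rpow hq0.le (by linarith), div_eq_mul_inv, ← Real.rpow_neg (by linarith)]
        congr 2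
        ring
      rw [e9] at e8
      calc C0 * M * (R ^ 2 / n) ^ (1 - (j : ℝ) / 2)
          ≤ C0 * M * (q ^ (1 - (j : ℝ) / 2) * N ^ ((j : ℝ) / 2 - 1)) :=
            mul_le_mul_of_nonneg_left e8 (by positivity)
        _ = _ := by ring
    · rw [if_neg hdvd]
      have : IsEmpty {γ : K // γ ∈ qf c b ∧ γ - 1 ∈ qf d b} :=
        ⟨fun γ => g2 hdvd γ.1 γ.2⟩
      rw [tsum_empty, zero_mul, zero_mul, zero_mul, sub_zero, abs_zero]
      have : 0 ≤ N := by linarith
      positivity
  have e10 : (∑ A ∈ (SP K P).powerset, ∑ B ∈ (SP K P).powerset, (-1 : ℝ) ^ (A.card + B.card) *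
        ∑' γ : {γ : K // γ ∈ qf (idS A * idS S) b ∧ γ - 1 ∈ qf (idS B * (k * l)) b},
          F ((em K γ.1 - 1) / R)) -
      (∑ A ∈ (SP K P).powerset, ∑ B ∈ (SP K P).powerset, (-1 : ℝ) ^ (A.card + B.card) *
        (if idS A * idS S ⊔ idS B * (k * l) ∣ b then
          nm (idS A * idS S ⊔ idS B * (k * l)) / (nS np A * nS np B) else 0)) * (2 / sd K) *
        (nm b / D) * (R ^ 2 * ∫ z, F z) =
      ∑ A ∈ (SP K P).powerset, ∑ B ∈ (SP K P).powerset, (-1 : ℝ) ^ (A.card + B.card) *
        ((∑' γ : {γ : K // γ ∈ qf (idS A * idS S) b ∧ γ - 1 ∈ qf (idS B * (k * l)) b},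
          F ((em K γ.1 - 1) / R)) -
        (if idS A * idS S ⊔ idS B * (k * l) ∣ b then
          nm (idS A * idS S ⊔ idS B * (k * l)) / (nS np A * nS np B) else 0) * (2 / sd K) *
          (nm b / D) * (R ^ 2 * ∫ z, F z)) := by
    rw [Finset.sum_mul, Finset.sum_mul, Finset.sum_mul, ← Finset.sum_sub_distrib]
    refine Finset.sum_congr rfl fun A _ => ?_
    rw [Finset.sum_mul, Finset.sum_mul, Finset.sum_mul, ← Finset.sum_sub_distrib]
    refine Finset.sum_congr rfl fun B _ => ?_
    ring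
  rw [e10]
  refine (Finset.abs_sum_le_sum_abs _ _).trans ?_
  rw [Finset.sum_mul, Finset.sum_mul]
  refine Finset.sum_le_sum fun A hA => ?_
  refine (Finset.abs_sum_le_sum_abs _ _).trans ?_
  rw [Finset.sum_mul, Finset.sum_mul]
  refine Finset.sum_le_sum fun B hB => ?_
  rw [abs_mul, abs_pow, abs_neg, abs_one, one_pow, one_mul]
  exact key A hA B hB

end Pool.Agent.H33.HH
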