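import Pool.Agent.H33.HH.SMF

/-!
# NS1: partial summation
-/

set_option autoImplicit false

open NumberField Complex Filter Topology MeasureTheory
open scoped ContDiff

namespace Pool.Agent.H33.HH

open Pool.Agent.H28.RC Pool.Agent.H37.CV

theorem fin_cp {K : Type} [Field K] [NumberField K] (P x : ℝ) :
    {I : Ideal (𝓞 K) | I ≠ ⊥ ∧ Cp P I ∧ nm I ≤ x}.Finite := by
  refine (Ideal.finite_setOfPred_absNorm_le (S := 𝓞 K) ⌊x⌋₊).subset ?_
  rintro I ⟨-, -, hI⟩
  exact Nat.le_floor hI

theorem nm_ge_one' {K : Type} [Field K] [NumberField K] {I : Ideal (𝓞 K)} (h : I ≠ ⊥) :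
    1 ≤ nm I := by
  unfold nm
  have : Ideal.absNorm I ≠ 0 := by
    rw [Ne, Ideal.absNorm_eq_zero_iff]
    exact h
  exact_mod_cast Nat.one_le_iff_ne_zero.mpr this

theorem pf_NS1 : T_NS1 := by
  classical
  intro K _ _ _ P f f' hf hf' x hx
  set X := (fin_cp (K := K) P x).toFinset with hX
  have hmem : ∀ I : Ideal (𝓞 K), I ∈ X ↔ I ≠ ⊥ ∧ Cp P I ∧ nm I ≤ x := fun I => by
    rw [hX, Set.Finite.mem_toFinset]
    rfl
  have hcn : ∀ t, t ≤ x → cn K P t = ∑ I ∈ X, if nm I ≤ t then (1 : ℝ) else 0 := by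
    intro t ht
    unfold cn
    have : {I : Ideal (𝓞 K) | I ≠ ⊥ ∧ Cp P I ∧ nm I ≤ t} =
        ((X.filter fun I => nm I ≤ t : Finset (Ideal (𝓞 K))) : Set (Ideal (𝓞 K))) := by
      ext I
      rw [Finset.mem_coe, Finset.mem_filter, hmem]
      constructor
      · rintro ⟨h1, h2, h3⟩
        exact ⟨⟨h1, h2, h3.trans ht⟩, h3⟩
      · rintro ⟨⟨h1, h2, -⟩, h3⟩
        exact ⟨h1, h2, h3⟩
    rw [this, Set.ncard_coe_finset, Finset.sum_ite, Finset.sum_const_zero, add_zero,
      Finset.sum_const, nsmul_eq_mul, mul_one]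
  rw [finsum_mem_eq_finite_toFinset_sum _ (fin_cp P x)]
  have hcont : ContinuousOn f' (Set.Icc 1 x) := hf'.mono fun t ht => by
    have : (1 : ℝ) ≤ t := ht.1
    exact lt_of_lt_of_le one_pos this
  have e1 : ∫ t in Set.Ioc 1 x, f' t * cn K P t =
      ∑ I ∈ X, ∫ t in Set.Ioc 1 x, (Set.Ici (nm I)).indicator f' t := by
    rw [← integral_finsetSum]
    · refine setIntegral_congr_fun measurableSet_Ioc fun t ht => ?_
      rw [hcn t ht.2, Finset.mul_sum]
      refine Finset.sum_congr rfl fun I _ => ?_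
      by_cases h : nm I ≤ t
      · rw [if_pos h, mul_one, Set.indicator_of_mem (show t ∈ Set.Ici (nm I) from h)]
      · rw [if_neg h, mul_zero, Set.indicator_of_notMem (show t ∉ Set.Ici (nm I) from h)]
    · intro I _
      refine Integrable.indicator ?_ measurableSet_Ici
      exact (hcont.integrableOn_Icc).mono_set Set.Ioc_subset_Icc_self
  have e2 : ∀ I ∈ X, ∫ t in Set.Ioc 1 x, (Set.Ici (nm I)).indicator f' t = f x - f (nm I) := by
    intro I hI
    obtain ⟨h1, h2, h3⟩ := (hmem I).1 hI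
    have h4 := nm_ge_one' h1
    rw [setIntegral_indicator measurableSet_Ici]
    have e3 : ∫ t in Set.Ioc 1 x ∩ Set.Ici (nm I), f' t = ∫ t in Set.Ioc (nm I) x, f' t := by
      refine setIntegral_congr_set ?_
      have : (Set.Ioc 1 x ∩ Set.Ici (nm I) : Set ℝ) =ᵐ[volume] Set.Icc (nm I) x := by
        rcases eq_or_lt_of_le h4 with h5 | h5
        · rw [← h5]
          have : Set.Ioc (1 : ℝ) x ∩ Set.Ici 1 = Set.Ioc 1 x := by
            ext t
            simp only [Set.mem_inter_iff, Set.mem_Ioc, Set.mem_Ici]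
            constructor
            · exact fun h => h.1
            · exact fun h => ⟨h, h.1.le⟩
          rw [this]
          exact Ioc_ae_eq_Icc
        · have : Set.Ioc (1 : ℝ) x ∩ Set.Ici (nm I) = Set.Icc (nm I) x := by
            ext t
            simp only [Set.mem_inter_iff, Set.mem_Ioc, Set.mem_Ici, Set.mem_Icc]
            constructor
            · exact fun h => ⟨h.2, h.1.2⟩
            · exact fun h => ⟨⟨lt_of_lt_of_le h5 h.1, h.2⟩, h.1⟩
          exact Filter.EventuallyEq.of_eq this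
      exact this.trans Ioc_ae_eq_Icc.symm
    rw [e3, ← intervalIntegral.integral_of_le h3]
    refine intervalIntegral.integral_eq_sub_of_hasDerivAt (fun t ht => ?_) ?_
    · rw [Set.uIcc_of_le h3] at ht
      exact hf t (by linarith [ht.1])
    · refine ContinuousOn.intervalIntegrable ?_
      rw [Set.uIcc_of_le h3]
      exact hf'.mono fun t ht => lt_of_lt_of_le one_pos (h4.trans ht.1)
  rw [e1, Finset.sum_congr rfl e2, hcn x le_rfl]
  have e4 : ∑ I ∈ X, (if nm I ≤ x then (1 : ℝ) else 0) = ∑ I ∈ X, (1 : ℝ) :=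
    Finset.sum_congr rfl fun I hI => if_pos ((hmem I).1 hI).2.2
  rw [e4, Finset.mul_sum, Finset.sum_sub_distrib]
  simp [hX]

end Pool.Agent.H33.HH
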