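import Pool.Agent.H33.HH.TD
import Pool.Agent.H28.RC.Basic

/-!
# PR1: the values at the principal ideals (after H27/CF/RNTH)
-/

set_option autoImplicit false

open NumberField Module
open scoped nonZeroDivisors

namespace Pool.Agent.H33.HH

open Pool.Agent.H28.RC

section

variable {K : Type} [Field K] [NumberField K]

/-- a nonzero lift -/
lemma lift_ne' (f : Ideal (𝓞 K)) (hf : f ≠ ⊥) (r : 𝓞 K ⧸ f) :
    ∃ a : 𝓞 K, a ≠ 0 ∧ Ideal.Quotient.mk f a = r := by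
  obtain ⟨a, ha⟩ := Ideal.Quotient.mk_surjective r
  by_cases h : a = 0
  · obtain ⟨b, hb, hb0⟩ := Submodule.exists_mem_ne_zero_of_ne_bot hf
    refine ⟨b, hb0, ?_⟩
    rw [← ha, h, map_zero, Ideal.Quotient.eq_zero_iff_mem]
    exact hb
  · exact ⟨a, h, ha⟩

/-- the value with the sign -/
noncomputable def Gw (χ : RCC K) (a : 𝓞 K) : ℂ := χ.ψ (Ideal.span {a}) * sg K χ.S (a : K)

lemma coe_ne' {a : 𝓞 K} (h : a ≠ 0) : (a : K) ≠ 0 := by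
  simpa using h

/-- the value at the product -/
lemma Gw_one (χ : RCC K) {a c : 𝓞 K} (ha : a ≠ 0)
    (hc : c ≠ 0) (h : Ideal.Quotient.mk χ.f (a * c) = 1) :
    Gw χ a * Gw χ c = 1 := by
  have h1 : a * c - 1 ∈ χ.f := by
    rwa [← map_one (Ideal.Quotient.mk χ.f), Ideal.Quotient.eq] at h
  have h2 := χ.princ (a * c) (mul_ne_zero ha hc) h1
  rw [← Ideal.span_singleton_mul_span_singleton, χ.map_mul] at h2
  have e : (((a * c : 𝓞 K)) : K) = (a : K) * (c : K) := rfl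
  rw [e, sg_mul χ.S (coe_ne' ha) (coe_ne' hc)] at h2
  unfold Gw
  have s1 := sg_sq χ.S (a : K)
  have s2 := sg_sq χ.S (c : K)
  calc χ.ψ (Ideal.span {a}) * sg K χ.S (a : K) * (χ.ψ (Ideal.span {c}) * sg K χ.S (c : K))
      = (χ.ψ (Ideal.span {a}) * χ.ψ (Ideal.span {c})) *
        (sg K χ.S (a : K) * sg K χ.S (c : K)) := by ring
    _ = (sg K χ.S (a : K) * sg K χ.S (a : K)) * (sg K χ.S (c : K) * sg K χ.S (c : K)) := by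
        rw [h2]; ring
    _ = 1 := by rw [s1, s2, one_mul]

/-- the value depends only on the residue -/
lemma Gw_congr (χ : RCC K) {a b : 𝓞 K}
    (ha : a ≠ 0) (hb : b ≠ 0) (u : (𝓞 K ⧸ χ.f)ˣ)
    (h1 : (u : 𝓞 K ⧸ χ.f) = Ideal.Quotient.mk _ a)
    (h2 : (u : 𝓞 K ⧸ χ.f) = Ideal.Quotient.mk _ b) :
    Gw χ a = Gw χ b := by
  obtain ⟨c, hc, hcu⟩ := lift_ne' χ.f χ.f_ne ((u⁻¹ : (𝓞 K ⧸ χ.f)ˣ) : 𝓞 K ⧸ χ.f)
  have e1 := Gw_one χ ha hc (by rw [map_mul, ← h1, hcu, Units.mul_inv])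
  have e2 := Gw_one χ hb hc (by rw [map_mul, ← h2, hcu, Units.mul_inv])
  have hne : Gw χ c ≠ 0 := by
    intro h
    rw [h, mul_zero] at e1
    exact zero_ne_one e1
  exact mul_right_cancel₀ hne (e1.trans e2.symm)

lemma Gw_mul (χ : RCC K) {a b : 𝓞 K} (ha : a ≠ 0) (hb : b ≠ 0) :
    Gw χ (a * b) = Gw χ a * Gw χ b := by
  unfold Gw
  rw [← Ideal.span_singleton_mul_span_singleton, χ.map_mul]
  have e : (((a * b : 𝓞 K)) : K) = (a : K) * (b : K) := rfl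
  rw [e, sg_mul χ.S (coe_ne' ha) (coe_ne' hb)]
  ring

lemma Gw_ne (χ : RCC K) {a : 𝓞 K} (ha : a ≠ 0) (u : (𝓞 K ⧸ χ.f)ˣ)
    (h1 : (u : 𝓞 K ⧸ χ.f) = Ideal.Quotient.mk _ a) : Gw χ a ≠ 0 := by
  obtain ⟨c, hc, hcu⟩ := lift_ne' χ.f χ.f_ne ((u⁻¹ : (𝓞 K ⧸ χ.f)ˣ) : 𝓞 K ⧸ χ.f)
  have e1 := Gw_one χ ha hc (by rw [map_mul, ← h1, hcu, Units.mul_inv])
  intro h
  rw [h, zero_mul] at e1
  exact zero_ne_one e1

/-- a chosen lift -/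
noncomputable def aw (χ : RCC K) (u : (𝓞 K ⧸ χ.f)ˣ) : 𝓞 K :=
  (lift_ne' χ.f χ.f_ne (u : 𝓞 K ⧸ χ.f)).choose

lemma aw_ne (χ : RCC K) (u : (𝓞 K ⧸ χ.f)ˣ) : aw χ u ≠ 0 :=
  (lift_ne' χ.f χ.f_ne (u : 𝓞 K ⧸ χ.f)).choose_spec.1

lemma aw_mk (χ : RCC K) (u : (𝓞 K ⧸ χ.f)ˣ) :
    (u : 𝓞 K ⧸ χ.f) = Ideal.Quotient.mk _ (aw χ u) :=
  (lift_ne' χ.f χ.f_ne (u : 𝓞 K ⧸ χ.f)).choose_spec.2.symm

/-- the character of the unit group -/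
noncomputable def tw (χ : RCC K) : (𝓞 K ⧸ χ.f)ˣ →* ℂˣ :=
  MonoidHom.mk' (fun u => Units.mk0 (Gw χ (aw χ u)) (Gw_ne χ (aw_ne χ u) u (aw_mk χ u))) (by
      intro u v
      ext
      simp only [Units.val_mk0, Units.val_mul]
      rw [← Gw_mul χ (aw_ne χ u) (aw_ne χ v)]
      refine Gw_congr χ (aw_ne χ _) (mul_ne_zero (aw_ne χ u) (aw_ne χ v)) (u * v) (aw_mk χ _) ?_
      rw [map_mul, ← aw_mk χ u, ← aw_mk χ v, Units.val_mul])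

lemma tw_apply (χ : RCC K) (u : (𝓞 K ⧸ χ.f)ˣ) : ((tw χ u : ℂˣ) : ℂ) = Gw χ (aw χ u) := rfl

end

theorem pf_PR1 : T_PR1 := by
  intro K _ _ χ
  refine ⟨tw χ, fun a u ha hu => ?_⟩
  rw [tw_apply, Gw_congr χ (aw_ne χ u) ha u (aw_mk χ u) hu]
  unfold Gw
  have s1 := sg_sq χ.S (a : K)
  calc χ.ψ (Ideal.span {a}) = χ.ψ (Ideal.span {a}) * (sg K χ.S (a : K) * sg K χ.S (a : K)) := by
        rw [s1, mul_one]
    _ = _ := by ring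

end Pool.Agent.H33.HH
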