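import Pool.Agent.H33.HH.SMF

/-!
# The second moment: assembly (MP_347b49_nt), second part
-/

set_option autoImplicit false

open NumberField Complex Filter Topology MeasureTheory
open scoped ContDiff nonZeroDivisors

namespace Pool.Agent.H33.HH

open Pool.Agent.H28.RC Pool.Agent.H37.CV

noncomputable section

/-- one pair: the form is the main term up to the error terms. -/
theorem one_pair (hU : T_UNF) (hGAP : T_GAP) (hINF : T_INF) (hRPT : T_RPT) (hDAP : T_DAP)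
    (hCOM : T_COM) (hI : T_IDF) (K : Type) [Field K] [NumberField K] [IQ K] (P : ℝ)
    (W G H : ℝ → ℝ) (k : Ideal (𝓞 K)) (θ e : ℝ) (hP : (SP K P).Nonempty) (hW : IsW W)
    (hW1 : 0 < W1 W) (hG : IsG G) (hH : IsH H) (hk : Sm' P k) (hp : Par θ e) :
    ∃ c δ C Q₁ : ℝ, 0 < δ ∧ 0 ≤ C ∧ 1 ≤ Q₁ ∧ ∀ Q : ℝ, Q₁ ≤ Q → ∀ S ∈ DP K P (Q ^ θ),
    ∀ T ∈ DP K P (Q ^ θ),
    |(nS np S * nS np T) ^ (-(1 / 2) : ℝ) * Bab P (Q ^ (1 + e)) Q W G k (idS S) (idS T) -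
      rk K P ^ 2 * W1 W * Q ^ 2 * (Vst (Real.log Q + c) S T / (nS np S * nS np T))| ≤
      C * Er Q δ S T := by
  obtain ⟨C2, q2, hC2, hq2, h2⟩ := hGAP K P W G H k θ e hP hW hG hH hk hp
  obtain ⟨C4, q4, hC4, hq4, h4⟩ := hINF K P W G H k θ e hP hW hG hH hk hp
  obtain ⟨d5, C5, q5, hd5, hC5, hq5, h5⟩ := hRPT K P W G H k θ e hW hW1 hG hH hk hp
  obtain ⟨C1, d1, q1, hC1, hd1, hq1, h1⟩ := hDAP K P W G θ e hW hG hp
  obtain ⟨c, d6, C6, q6, hd6, hC6, hq6, h6⟩ := hCOM K P W G H k θ e hW hW1 hG hH hk hp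
  set δ := min (min d1 d5) (min d6 1) with hδ
  have hδ0 : 0 < δ := lt_min (lt_min hd1 hd5) (lt_min hd6 one_pos)
  have hδ1 : δ ≤ d1 := (min_le_left _ _).trans (min_le_left _ _)
  have hδ5 : δ ≤ d5 := (min_le_left _ _).trans (min_le_right _ _)
  have hδ6 : δ ≤ d6 := (min_le_right _ _).trans (min_le_left _ _)
  have hδo : δ ≤ 1 := (min_le_right _ _).trans (min_le_right _ _)
  refine ⟨c, δ, C1 + 2 * C2 + C4 + 2 * C5 + 2 * C6, max (max q1 q2) (max (max q4 q5) q6), hδ0,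
    by positivity, ?_, ?_⟩
  · exact hq1.trans ((le_max_left _ _).trans (le_max_left _ _))
  intro Q hQ S hS T hT
  have Q1 : q1 ≤ Q := ((le_max_left _ _).trans (le_max_left _ _)).trans hQ
  have Q2 : q2 ≤ Q := ((le_max_right _ _).trans (le_max_left _ _)).trans hQ
  have Q4 : q4 ≤ Q := ((le_max_left _ _).trans ((le_max_left _ _).trans (le_max_right _ _))).trans hQ
  have Q5 : q5 ≤ Q := ((le_max_right _ _).trans ((le_max_left _ _).trans (le_max_right _ _))).trans hQ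
  have Q6 : q6 ≤ Q := ((le_max_right _ _).trans (le_max_right _ _)).trans hQ
  have hQ1 : 1 ≤ Q := hq1.trans Q1
  have hQ0 : 0 < Q := by linarith
  have hZ : 0 < Q ^ (1 + e) := Real.rpow_pos_of_pos hQ0 _
  have hy : 1 ≤ Q ^ θ := Real.one_le_rpow hQ1 hp.θpos.le
  obtain ⟨hS0, hSc, hSn, hS1, -, -, -, -⟩ := hI K P (Q ^ θ) hy S hS
  obtain ⟨hT0, hTc, hTn, hT1, -, -, -, -⟩ := hI K P (Q ^ θ) hy T hT
  have a1 := h1 Q Q1 S hS T hT
  have a2 := h2 Q Q2 S hS T hT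
  have a2' := h2 Q Q2 T hT S hS
  have a4 := h4 Q Q4 S hS T hT
  have a5 := h5 Q Q5 S hS T hT
  have a5' := h5 Q Q5 T hT S hS
  have a6 := h6 Q Q6 S hS T hT
  have a6' := h6 Q Q6 T hT S hS
  change |_ - rk K P * W1 W * Q ^ 2 * Dd P (Q ^ (1 + e)) G S T| ≤ _ at a1
  change |_ - (_ - 1 / 2 * rk K P * W1 W * Q ^ 2 * Dd P (Q ^ (1 + e)) G S T)| ≤ _ at a5
  change |_ - (_ - 1 / 2 * rk K P * W1 W * Q ^ 2 * Dd P (Q ^ (1 + e)) G T S)| ≤ _ at a5'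
  rw [Dd_symm hZ hG hSn hTn] at a5'
  rw [Nab_add hZ hG k S (idS T) (fun _ t => Thi K W * Ji G H t) (fun x t => Kx K W G H x t)] at a2
  rw [Nab_add hZ hG k T (idS S) (fun _ t => Thi K W * Ji G H t) (fun x t => Kx K W G H x t)] at a2'
  rw [mul_comm (nS np T) (nS np S)] at a2' a6'
  rw [Vst_symm S T] at a6'
  rw [Er_symm S T] at a2' a5' a6'
  have hE := Er_nonneg (δ := δ) hQ0.le S T
  have m1 := mul_le_mul_of_nonneg_left (Er_mono hQ1 hδ1 S T) hC1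
  have m2 := mul_le_mul_of_nonneg_left (Er_mono hQ1 hδo S T) hC2
  have m4 := mul_le_mul_of_nonneg_left (Er_mono hQ1 hδo S T) hC4
  have m5 := mul_le_mul_of_nonneg_left (Er_mono hQ1 hδ5 S T) hC5
  have m6 := mul_le_mul_of_nonneg_left (Er_mono hQ1 hδ6 S T) hC6
  rw [hU K P (Q ^ (1 + e)) Q W G H hQ0 hZ hW hG hH (idS S) (idS T) k hS0 hT0 hSc hTc hk]
  rw [abs_le] at *
  constructor
  · nlinarith [a1.1, a2.1, a2'.1, a4.1, a5.1, a5'.1, a6.1, a6'.1]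
  · nlinarith [a1.2, a2.2, a2'.2, a4.2, a5.2, a5'.2, a6.2, a6'.2]

theorem pf_SMF (hX : T_HEX) (hU : T_UNF) (hGAP : T_GAP) (hINF : T_INF) (hRPT : T_RPT)
    (hDAP : T_DAP) (hCOM : T_COM) (hI : T_IDF) (hSEC : T_SEC) (hERS : T_ERS) : T_SMF := by
  intro K _ _ _ P W G k θ e ε hP hW hW1 hG hk hp hε
  obtain ⟨H, hH⟩ := hX
  obtain ⟨c, δ, C, q₁, hδ, hC, hq₁, h⟩ :=
    one_pair hU hGAP hINF hRPT hDAP hCOM hI K P W G H k θ e hP hW hW1 hG hH hk hp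
  obtain ⟨C', hC', h'⟩ := hERS K P θ δ hp.θpos hδ
  -- the constant in front
  set A : ℝ := |rk K P * W1 W| + 1 with hA
  have hA0 : 0 < A := by positivity
  obtain ⟨q₂, h2⟩ := hSEC K P θ c (ε / (2 * A)) hp.θpos (by positivity)
  -- the power saving
  have hlim : Tendsto (fun Q : ℝ => C * C' * Q ^ (-(δ / 2))) atTop (𝓝 0) := by
    have := (tendsto_rpow_neg_atTop (half_pos hδ)).const_mul (C * C')
    simpa using this
  have hev : ∀ᶠ Q : ℝ in atTop, C * C' * Q ^ (-(δ / 2)) < ε / 2 :=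
    hlim.eventually (gt_mem_nhds (half_pos hε))
  obtain ⟨q₃, h3⟩ := eventually_atTop.1 hev
  refine ⟨max q₁ (max q₂ q₃), fun Q hQ => ?_⟩
  have Q1 : q₁ ≤ Q := (le_max_left _ _).trans hQ
  have Q2 : q₂ ≤ Q := ((le_max_left _ _).trans (le_max_right _ _)).trans hQ
  have Q3 : q₃ ≤ Q := ((le_max_right _ _).trans (le_max_right _ _)).trans hQ
  have hQ1 : 1 ≤ Q := hq₁.trans Q1
  have hQ0 : 0 < Q := by linarith
  rw [SM_eq hQ0 hW k]
  set V : ℝ := ∑ S ∈ DP K P (Q ^ θ), ∑ T ∈ DP K P (Q ^ θ), lm K P (Q ^ θ) S * lm K P (Q ^ θ) T *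
    (Vst (Real.log Q + c) S T / (nS np S * nS np T)) with hV
  have s1 : |(∑ S ∈ DP K P (Q ^ θ), ∑ T ∈ DP K P (Q ^ θ), lm K P (Q ^ θ) S * lm K P (Q ^ θ) T *
      ((nS np S * nS np T) ^ (-(1 / 2) : ℝ) * Bab P (Q ^ (1 + e)) Q W G k (idS S) (idS T))) -
      rk K P ^ 2 * W1 W * Q ^ 2 * V| ≤ C * (C' * Q ^ (2 - δ / 2)) := by
    have e1 : (∑ S ∈ DP K P (Q ^ θ), ∑ T ∈ DP K P (Q ^ θ), lm K P (Q ^ θ) S * lm K P (Q ^ θ) T *
      ((nS np S * nS np T) ^ (-(1 / 2) : ℝ) * Bab P (Q ^ (1 + e)) Q W G k (idS S) (idS T))) -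
      rk K P ^ 2 * W1 W * Q ^ 2 * V =
      ∑ S ∈ DP K P (Q ^ θ), ∑ T ∈ DP K P (Q ^ θ), lm K P (Q ^ θ) S * lm K P (Q ^ θ) T *
        ((nS np S * nS np T) ^ (-(1 / 2) : ℝ) * Bab P (Q ^ (1 + e)) Q W G k (idS S) (idS T) -
        rk K P ^ 2 * W1 W * Q ^ 2 * (Vst (Real.log Q + c) S T / (nS np S * nS np T))) := by
      rw [hV, Finset.mul_sum, ← Finset.sum_sub_distrib]
      refine Finset.sum_congr rfl fun S _ => ?_
      rw [Finset.mul_sum, ← Finset.sum_sub_distrib]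
      refine Finset.sum_congr rfl fun T _ => ?_
      ring
    rw [e1]
    have hb := h' Q hQ1
    calc |∑ S ∈ DP K P (Q ^ θ), ∑ T ∈ DP K P (Q ^ θ), lm K P (Q ^ θ) S * lm K P (Q ^ θ) T *
        ((nS np S * nS np T) ^ (-(1 / 2) : ℝ) * Bab P (Q ^ (1 + e)) Q W G k (idS S) (idS T) -
        rk K P ^ 2 * W1 W * Q ^ 2 * (Vst (Real.log Q + c) S T / (nS np S * nS np T)))|
        ≤ ∑ S ∈ DP K P (Q ^ θ), ∑ T ∈ DP K P (Q ^ θ),
          C * (|lm K P (Q ^ θ) S * lm K P (Q ^ θ) T| * Er Q δ S T) := by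
          refine (Finset.abs_sum_le_sum_abs _ _).trans (Finset.sum_le_sum fun S hS => ?_)
          refine (Finset.abs_sum_le_sum_abs _ _).trans (Finset.sum_le_sum fun T hT => ?_)
          rw [abs_mul]
          have := mul_le_mul_of_nonneg_left (h Q Q1 S hS T hT)
            (abs_nonneg (lm K P (Q ^ θ) S * lm K P (Q ^ θ) T))
          linarith
      _ = C * ∑ S ∈ DP K P (Q ^ θ), ∑ T ∈ DP K P (Q ^ θ),
          (|lm K P (Q ^ θ) S * lm K P (Q ^ θ) T| * Er Q δ S T) := by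
          rw [Finset.mul_sum]
          refine Finset.sum_congr rfl fun S _ => ?_
          rw [Finset.mul_sum]
      _ ≤ C * (C' * Q ^ (2 - δ / 2)) := mul_le_mul_of_nonneg_left hb hC
  have s2 : |rk K P ^ 2 * W1 W * Q ^ 2 * V - rk K P * W1 W * Q ^ 2 * Vq K P θ Q| ≤
      ε / 2 * Q ^ 2 := by
    have e2 : rk K P ^ 2 * W1 W * Q ^ 2 * V - rk K P * W1 W * Q ^ 2 * Vq K P θ Q =
        (rk K P * W1 W) * Q ^ 2 * (rk K P * V - Vq K P θ Q) := by ring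
    have b2 := h2 Q Q2
    rw [e2, abs_mul, abs_mul, abs_of_nonneg (by positivity : (0:ℝ) ≤ Q ^ 2)]
    have b3 : |rk K P * W1 W| * Q ^ 2 * |rk K P * V - Vq K P θ Q| ≤
        A * Q ^ 2 * (ε / (2 * A)) := by
      refine mul_le_mul ?_ b2 (abs_nonneg _) (by positivity)
      exact mul_le_mul_of_nonneg_right (by rw [hA]; linarith) (by positivity)
    refine b3.trans (le_of_eq ?_)
    field_simp
  have s3 : C * (C' * Q ^ (2 - δ / 2)) ≤ ε / 2 * Q ^ 2 := by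
    have b3 := (h3 Q Q3).le
    have e3 : Q ^ (2 - δ / 2) = Q ^ (-(δ / 2)) * Q ^ 2 := by
      rw [← Real.rpow_natCast Q 2, ← Real.rpow_add hQ0]
      congr 1
      push_cast
      ring
    rw [e3]
    calc C * (C' * (Q ^ (-(δ / 2)) * Q ^ 2)) = C * C' * Q ^ (-(δ / 2)) * Q ^ 2 := by ring
      _ ≤ ε / 2 * Q ^ 2 := mul_le_mul_of_nonneg_right b3 (by positivity)
  rw [abs_le] at s1 s2 ⊢
  constructor <;> linarith [s1.1, s1.2, s2.1, s2.2, s3]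

end

end Pool.Agent.H33.HH
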