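import Pool.Agent.H50.HH.HAL
import Pool.Agent.H97.HH.TAI

/-!
# Half of all the characters: the union over an arbitrary set of fields

The set `D` of fundamental discriminants is arbitrary, with at least one negative element. (The proof
is that of helper50 for all the discriminants and of helper97 for the large discriminants.)
-/

set_option autoImplicit false

open NumberField Filter Topology

namespace Pool.Agent.H33.HH

open Pool.Agent.H28.RC Pool.Agent.H37.CV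

open scoped Classical in
/-- the elements `d` of `D` with `|d| ≤ X` -/
noncomputable def FD (D : Set ℤ) (X : ℝ) : Finset ℤ := (Finset.Icc (-⌊X⌋) ⌊X⌋).filter (· ∈ D)

theorem mem_FD (D : Set ℤ) (X : ℝ) (d : ℤ) :
    d ∈ FD D X ↔ (-⌊X⌋ ≤ d ∧ d ≤ ⌊X⌋) ∧ d ∈ D := by
  classical
  unfold FD
  rw [Finset.mem_filter, Finset.mem_Icc]

theorem mem_Fd' (X : ℝ) (d : ℤ) : d ∈ Fd' X ↔ (-⌊X⌋ ≤ d ∧ d ≤ ⌊X⌋) ∧ IsFund d := by
  classical
  unfold Fd'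
  rw [Finset.mem_filter, Finset.mem_Icc]

theorem FD_sub (D : Set ℤ) (hD : ∀ d ∈ D, IsFund d) (X : ℝ) : FD D X ⊆ Fd' X := by
  intro d hd
  rw [mem_FD] at hd
  rw [mem_Fd']
  exact ⟨hd.1, hD d hd.2⟩

/-- TAD: the large discriminants are negligible. -/
def T_TAD : Prop := ∃ C : ℝ, 0 ≤ C ∧ ∀ (D : Set ℤ), (∀ d ∈ D, IsFund d) →
  ∀ (K : ℤ → Type) [∀ d, Field (K d)] [∀ d, NumberField (K d)],
  (∀ d ∈ D, Module.finrank ℚ (K d) = 2 ∧ discr (K d) = d) →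
  ∀ X Y : ℝ, 1 ≤ X → 1 ≤ Y →
  (∀ d ∈ FD D X, (Al (K d) (X / |(d : ℝ)|)).Finite) ∧
  ∑ d ∈ (FD D X).filter (fun d : ℤ => Y < |(d : ℝ)|), ((Al (K d) (X / |(d : ℝ)|)).ncard : ℝ) ≤
    C * X ^ 2 * Y ^ (-(1 / 4) : ℝ)

theorem pf_TAD (h1 : T_PRB) (h2 : T_IDB) (h3 : T_CNB) (h4 : T_FDS) (h5 : T_TSD) : T_TAD := by
  obtain ⟨C₁, hC₁, hI⟩ := h2
  obtain ⟨C₂, hC₂, hN⟩ := h3
  obtain ⟨C₅, hC₅, hS⟩ := h5
  refine ⟨324 * C₁ * C₂ * C₅, by positivity, ?_⟩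
  intro D hD K _ _ hK X Y hX hY
  have main : ∀ d ∈ FD D X, (Al (K d) (X / |(d : ℝ)|)).Finite ∧
      ((Al (K d) (X / |(d : ℝ)|)).ncard : ℝ) ≤ 324 * C₁ * C₂ * X ^ 2 * |(d : ℝ)| ^ (-(5 / 4) : ℝ) := by
    intro d hd
    have hdD : d ∈ D := ((mem_FD D X d).1 hd).2
    have hfd := hD d hdD
    obtain ⟨k1, k2⟩ := hK d hdD
    obtain ⟨d1, d2⟩ := h4 d hfd
    have hdX : |(d : ℝ)| ≤ X := (d2 X (by linarith)).1 (FD_sub D hD X hd)
    have hd0 : 0 < |(d : ℝ)| := by linarith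
    have hx1 : 1 ≤ X / |(d : ℝ)| := by rw [le_div_iff₀ hd0]; linarith
    obtain ⟨a1, a2⟩ := Pool.Agent.H97.HH.tai_al h1 (K d) k1 (X / |(d : ℝ)|) hx1
    refine ⟨a1, ?_⟩
    have b1 := hI (K d) (X / |(d : ℝ)|) k1 (by rw [k2]; exact hfd) hx1
    have b2 := hN (K d) k1 (by rw [k2]; exact hfd)
    rw [k2] at b1 b2
    have hL0 : 0 ≤ Real.log |(d : ℝ)| := Real.log_nonneg (by linarith)
    have hh : 0 ≤ hc (K d) := Nat.cast_nonneg _
    have hlog := Pool.Agent.H97.HH.tai_log |(d : ℝ)| (by linarith)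
    set t := |(d : ℝ)| with ht
    have e1 : ((Al (K d) (X / t)).ncard : ℝ) ≤ 4 * (C₂ * Real.sqrt t * (1 + Real.log t)) * (X / t) *
        (C₁ * (X / t) * (1 + Real.log t)) := by
      refine a2.trans ?_
      have hxt : 0 ≤ X / t := by linarith
      have : 4 * hc (K d) * (X / t) ≤ 4 * (C₂ * Real.sqrt t * (1 + Real.log t)) * (X / t) :=
        mul_le_mul_of_nonneg_right (by linarith) hxt
      exact mul_le_mul this b1 (Nat.cast_nonneg _) (by positivity)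
    refine e1.trans ?_
    have e2 : 4 * (C₂ * Real.sqrt t * (1 + Real.log t)) * (X / t) *
        (C₁ * (X / t) * (1 + Real.log t)) = 4 * C₁ * C₂ * X ^ 2 * (Real.sqrt t / t ^ 2) *
          (1 + Real.log t) ^ 2 := by
      field_simp
    rw [e2]
    have e3 : Real.sqrt t / t ^ 2 * t ^ (1 / 4 : ℝ) = t ^ (-(5 / 4) : ℝ) := by
      rw [Real.sqrt_eq_rpow, ← Real.rpow_natCast, ← Real.rpow_sub hd0, ← Real.rpow_add hd0]
      norm_num
    have e4 : 0 ≤ Real.sqrt t / t ^ 2 := by positivity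
    calc 4 * C₁ * C₂ * X ^ 2 * (Real.sqrt t / t ^ 2) * (1 + Real.log t) ^ 2
        ≤ 4 * C₁ * C₂ * X ^ 2 * (Real.sqrt t / t ^ 2) * (81 * t ^ (1 / 4 : ℝ)) :=
          mul_le_mul_of_nonneg_left hlog (by positivity)
      _ = 324 * C₁ * C₂ * X ^ 2 * (Real.sqrt t / t ^ 2 * t ^ (1 / 4 : ℝ)) := by ring
      _ = _ := by rw [e3]
  refine ⟨fun d hd => (main d hd).1, ?_⟩
  refine (Finset.sum_le_sum fun d hd => (main d (Finset.mem_filter.1 hd).1).2).trans ?_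
  rw [← Finset.mul_sum]
  have := hS ((FD D X).filter (fun d : ℤ => Y < |(d : ℝ)|)) Y hY (fun d hd => (Finset.mem_filter.1 hd).2)
  calc 324 * C₁ * C₂ * X ^ 2 * ∑ d ∈ (FD D X).filter (fun d : ℤ => Y < |(d : ℝ)|),
        |(d : ℝ)| ^ (-(5 / 4) : ℝ) ≤ 324 * C₁ * C₂ * X ^ 2 * (C₅ * Y ^ (-(1 / 4) : ℝ)) :=
        mul_le_mul_of_nonneg_left this (by positivity)
    _ = _ := by ring

/-- GEN: half of all the characters, the union over a set `D` of fundamental discriminants with a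
negative element. -/
def T_GEN : Prop := ∀ (D : Set ℤ), (∀ d ∈ D, IsFund d) → (∃ d ∈ D, d < 0) →
  ∀ (K : ℤ → Type) [∀ d, Field (K d)] [∀ d, NumberField (K d)],
  (∀ d ∈ D, Module.finrank ℚ (K d) = 2 ∧ discr (K d) = d) →
  ∀ ε : ℝ, 0 < ε → ∃ X₀ : ℝ, ∀ X : ℝ, X₀ ≤ X →
  (∀ d ∈ FD D X, (Ui (K d) (X / |(d : ℝ)|)).Finite) ∧
  0 < ∑ d ∈ FD D X, (Ui (K d) (X / |(d : ℝ)|)).ncard ∧
  (1 / 2 - ε) * ∑ d ∈ FD D X, ((Ui (K d) (X / |(d : ℝ)|)).ncard : ℝ) ≤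
    ∑ d ∈ FD D X, ({χ : RCC (K d) | χ ∈ Ui (K d) (X / |(d : ℝ)|) ∧ NV χ}.ncard : ℝ)

/-- the arithmetic of the assembly -/
theorem gen_arith {ε c η t A B1 B2 a b X : ℝ} (hc : 0 ≤ c) (ht : 0 < t) (hε0 : 0 < ε)
    (hε : ε ≤ 1 / 2)
    (hη : η = ε * (c / t ^ 2) / 4) (h1 : a = B1 + B2 + A) (hA : (1 / 2 - ε / 4) * A ≤ b)
    (hB1 : B1 ≤ η * X ^ 2) (hB2 : B2 ≤ η * X ^ 2) (hlow : c / t ^ 2 * X ^ 2 ≤ a) :
    (1 / 2 - ε) * a ≤ b := by
  have hA' : a - 2 * (η * X ^ 2) ≤ A := by linarith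
  have h2 : 0 ≤ 1 / 2 - ε / 4 := by linarith
  have h3 : (1 / 2 - ε / 4) * (a - 2 * (η * X ^ 2)) ≤ b :=
    (mul_le_mul_of_nonneg_left hA' h2).trans hA
  have h5 : (3 * ε / 4) * (c / t ^ 2 * X ^ 2) ≤ (3 * ε / 4) * a :=
    mul_le_mul_of_nonneg_left hlow (by linarith)
  have h6 : η * X ^ 2 = ε * (c / t ^ 2 * X ^ 2) / 4 := by rw [hη]; ring
  rw [h6] at h3
  have h8 : 0 ≤ c / t ^ 2 * X ^ 2 := by positivity
  have h7 : 0 ≤ ε * (ε * (c / t ^ 2 * X ^ 2)) := by positivity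
  nlinarith [h3, h5, h7, mul_nonneg hε0.le h8]

theorem pf_GEN (h1 : T_KA) (h2 : T_TAD) (h3 : T_REA) (h4 : T_FDS) : T_GEN := by
  intro D hD hneg K _ _ hK ε0 hε00
  obtain ⟨d₀, hd₀, hd₀n⟩ := hneg
  obtain ⟨C, hC, hTAI⟩ := h2
  have hTAI' := hTAI D hD K hK
  -- reduction to a small ε
  set ε := min ε0 (1 / 2) with hεdef
  have hε0 : 0 < ε := lt_min hε00 (by norm_num)
  have hε : ε ≤ 1 / 2 := min_le_right _ _
  have hεε : ε ≤ ε0 := min_le_left _ _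
  -- the field of discriminant d₀
  have h3f : IsFund d₀ := hD d₀ hd₀
  have i3 : IQ (K d₀) := ⟨(hK _ hd₀).1, by rw [(hK _ hd₀).2]; exact hd₀n⟩
  set t₀ : ℝ := |(d₀ : ℝ)| with ht₀
  have ht3 : 3 ≤ t₀ := (h4 d₀ h3f).1
  have ht0 : 0 < t₀ := by linarith
  obtain ⟨c, x3, hc, hx3, hlow⟩ := (h1 (K d₀)).1
  set η := ε * (c / t₀ ^ 2) / 4 with hη
  have hη0 : 0 < η := by positivity
  set M := max 1 (C / η) with hM
  have hM1 : 1 ≤ M := le_max_left _ _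
  have hMC : C ≤ η * M := by
    have : C / η ≤ M := le_max_right _ _
    rw [div_le_iff₀ hη0] at this
    linarith
  set Y := M ^ 4 with hY
  have hY1 : 1 ≤ Y := one_le_pow₀ hM1
  have hYC : C * Y ^ (-(1 / 4) : ℝ) ≤ η := by
    have e : Y ^ (-(1 / 4) : ℝ) = M⁻¹ := by
      rw [hY, ← Real.rpow_natCast, ← Real.rpow_mul (by linarith)]
      norm_num
      exact Real.rpow_neg_one M
    rw [e, ← div_eq_mul_inv, div_le_iff₀ (by linarith)]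
    exact hMC
  set N : ℝ := ((FD D Y).card : ℝ) with hN
  have hN0 : 0 ≤ N := Nat.cast_nonneg _
  have hε' : 0 < η / (N + 1) := by positivity
  have hloc : ∀ d : ℤ, ∃ x0 : ℝ, 1 ≤ x0 ∧ (d ∈ D → ∀ x, x0 ≤ x →
      (d < 0 → (1 / 2 - ε / 4) * ((Ui (K d) x).ncard : ℝ) ≤
        ({χ : RCC (K d) | χ ∈ Ui (K d) x ∧ NV χ}.ncard : ℝ)) ∧
      (0 < d → ((Al (K d) x).ncard : ℝ) ≤ η / (N + 1) * x ^ 2)) := by
    intro d
    by_cases hd : d ∈ D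
    · rcases lt_trichotomy d 0 with h | h | h
      · have : IQ (K d) := ⟨(hK _ hd).1, by rw [(hK _ hd).2]; exact h⟩
        obtain ⟨x0, hx0, hh⟩ := (h1 (K d)).2 (ε / 4) (by linarith)
        exact ⟨x0, hx0, fun _ x hx => ⟨fun _ => (hh x hx).2, fun h' => absurd h' (by omega)⟩⟩
      · exact ⟨1, le_rfl, fun _ x _ => ⟨fun h' => absurd h' (by omega), fun h' => absurd h' (by omega)⟩⟩
      · obtain ⟨x0, hx0, hh⟩ := h3 (K d) (hK _ hd).1 (by rw [(hK _ hd).2]; exact h) _ hε'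
        exact ⟨x0, hx0, fun _ x hx => ⟨fun h' => absurd h' (by omega), fun _ => (hh x hx).2⟩⟩
    · exact ⟨1, le_rfl, fun h' => absurd h' hd⟩
  choose x0 hx0 hloc' using hloc
  refine ⟨1 + Y + t₀ * x3 + ∑ d ∈ FD D Y, |(d : ℝ)| * x0 d, fun X hX => ?_⟩
  have hsum0 : 0 ≤ ∑ d ∈ FD D Y, |(d : ℝ)| * x0 d :=
    Finset.sum_nonneg fun d _ => mul_nonneg (abs_nonneg _) (by linarith [hx0 d])
  have htx : 0 ≤ t₀ * x3 := by positivity
  have hX1 : 1 ≤ X := by linarith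
  have hX0 : 0 ≤ X := by linarith
  have hXY : Y ≤ X := by linarith
  have hX3 : t₀ * x3 ≤ X := by linarith
  have hXd : ∀ d ∈ FD D Y, |(d : ℝ)| * x0 d ≤ X := fun d hd => by
    have := Finset.single_le_sum (f := fun d : ℤ => |(d : ℝ)| * x0 d)
      (fun d _ => mul_nonneg (abs_nonneg _) (by linarith [hx0 d])) hd
    linarith
  obtain ⟨hfinA, htail⟩ := hTAI' X Y hX1 hY1
  have hinD : ∀ (Z : ℝ) (d : ℤ), d ∈ FD D Z → d ∈ D := fun Z d hd => ((mem_FD D Z d).1 hd).2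
  have hfund : ∀ (Z : ℝ) (d : ℤ), d ∈ FD D Z → IsFund d := fun Z d hd => hD d (hinD Z d hd)
  have hiff : ∀ (Z : ℝ) (d : ℤ), 0 ≤ Z → d ∈ D → (d ∈ FD D Z ↔ |(d : ℝ)| ≤ Z) := by
    intro Z d hZ hd
    rw [← (h4 d (hD d hd)).2 Z hZ, mem_FD, mem_Fd']
    exact ⟨fun h => ⟨h.1, hD d hd⟩, fun h => ⟨h.1, hd⟩⟩
  have hsub : ∀ d : ℤ, Ui (K d) (X / |(d : ℝ)|) ⊆ Al (K d) (X / |(d : ℝ)|) := fun d χ h => h.2
  have hfinU : ∀ d ∈ FD D X, (Ui (K d) (X / |(d : ℝ)|)).Finite := fun d hd =>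
    (hfinA d hd).subset (hsub d)
  have hUA : ∀ d ∈ FD D X, ((Ui (K d) (X / |(d : ℝ)|)).ncard : ℝ) ≤
      ((Al (K d) (X / |(d : ℝ)|)).ncard : ℝ) := fun d hd => by
    exact_mod_cast Set.ncard_le_ncard (hsub d) (hfinA d hd)
  -- splitting
  set a : ℤ → ℝ := fun d => ((Ui (K d) (X / |(d : ℝ)|)).ncard : ℝ) with ha
  set b : ℤ → ℝ := fun d =>
    ({χ : RCC (K d) | χ ∈ Ui (K d) (X / |(d : ℝ)|) ∧ NV χ}.ncard : ℝ) with hb
  have ha0 : ∀ d, 0 ≤ a d := fun d => Nat.cast_nonneg _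
  have hb0 : ∀ d, 0 ≤ b d := fun d => Nat.cast_nonneg _
  set F1 := (FD D X).filter (fun d : ℤ => Y < |(d : ℝ)|) with hF1
  set F2 := (FD D X).filter (fun d : ℤ => ¬ Y < |(d : ℝ)|) with hF2
  have hF2Y : ∀ d ∈ F2, d ∈ FD D Y := fun d hd => by
    obtain ⟨hd1, hd2⟩ := Finset.mem_filter.1 hd
    exact (hiff Y d (by linarith) (hinD X d hd1)).2 (not_lt.1 hd2)
  have hsplit : ∑ d ∈ FD D X, a d = ∑ d ∈ F1, a d + ∑ d ∈ F2.filter (fun d => ¬ d < 0), a d +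
      ∑ d ∈ F2.filter (fun d => d < 0), a d := by
    rw [add_assoc, add_comm (∑ d ∈ F2.filter (fun d => ¬ d < 0), a d),
      Finset.sum_filter_add_sum_filter_not F2 (fun d => d < 0),
      Finset.sum_filter_add_sum_filter_not (FD D X) (fun d : ℤ => Y < |(d : ℝ)|)]
  have hB1 : ∑ d ∈ F1, a d ≤ η * X ^ 2 := by
    calc ∑ d ∈ F1, a d ≤ ∑ d ∈ F1, ((Al (K d) (X / |(d : ℝ)|)).ncard : ℝ) :=
          Finset.sum_le_sum fun d hd => hUA d (Finset.mem_filter.1 hd).1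
      _ ≤ C * X ^ 2 * Y ^ (-(1 / 4) : ℝ) := htail
      _ = (C * Y ^ (-(1 / 4) : ℝ)) * X ^ 2 := by ring
      _ ≤ η * X ^ 2 := mul_le_mul_of_nonneg_right hYC (sq_nonneg _)
  have habs : ∀ d : ℤ, IsFund d → 1 ≤ |(d : ℝ)| := fun d hd => by linarith [(h4 d hd).1]
  have hdom : ∀ d ∈ F2, x0 d ≤ X / |(d : ℝ)| := fun d hd => by
    have hdY := hF2Y d hd
    rw [le_div_iff₀ (by linarith [habs d (hfund Y d hdY)])]
    linarith [hXd d hdY]
  have hB2 : ∑ d ∈ F2.filter (fun d => ¬ d < 0), a d ≤ η * X ^ 2 := by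
    have hterm : ∀ d ∈ F2.filter (fun d => ¬ d < 0), a d ≤ η / (N + 1) * X ^ 2 := by
      intro d hd
      obtain ⟨hd1, hd2⟩ := Finset.mem_filter.1 hd
      have hfd := hfund Y d (hF2Y d hd1)
      have hdX : d ∈ FD D X := (Finset.mem_filter.1 hd1).1
      have hd0 : d ≠ 0 := by
        rintro rfl
        have := habs 0 hfd
        norm_num at this
      have hpos : 0 < d := lt_of_le_of_ne (not_lt.1 hd2) (Ne.symm hd0)
      have h5 := (hloc' d (hinD X d hdX) _ (hdom d hd1)).2 hpos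
      refine (hUA d hdX).trans (h5.trans ?_)
      refine mul_le_mul_of_nonneg_left ?_ hε'.le
      have h6 : X / |(d : ℝ)| ≤ X := div_le_self hX0 (habs d hfd)
      exact pow_le_pow_left₀ (div_nonneg hX0 (abs_nonneg _)) h6 2
    calc ∑ d ∈ F2.filter (fun d => ¬ d < 0), a d
        ≤ ∑ _d ∈ F2.filter (fun d => ¬ d < 0), η / (N + 1) * X ^ 2 := Finset.sum_le_sum hterm
      _ = ((F2.filter (fun d => ¬ d < 0)).card : ℝ) * (η / (N + 1) * X ^ 2) := by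
          rw [Finset.sum_const, nsmul_eq_mul]
      _ ≤ (N + 1) * (η / (N + 1) * X ^ 2) := by
          refine mul_le_mul_of_nonneg_right ?_ (by positivity)
          have : (F2.filter (fun d => ¬ d < 0)).card ≤ (FD D Y).card :=
            Finset.card_le_card fun d hd => hF2Y d (Finset.mem_filter.1 hd).1
          have h7 : ((F2.filter (fun d => ¬ d < 0)).card : ℝ) ≤ N := by
            rw [hN]; exact_mod_cast this
          linarith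
      _ = η * X ^ 2 := by field_simp
  have hA : (1 / 2 - ε / 4) * ∑ d ∈ F2.filter (fun d => d < 0), a d ≤ ∑ d ∈ FD D X, b d := by
    rw [Finset.mul_sum]
    calc ∑ d ∈ F2.filter (fun d => d < 0), (1 / 2 - ε / 4) * a d
        ≤ ∑ d ∈ F2.filter (fun d => d < 0), b d := by
          refine Finset.sum_le_sum fun d hd => ?_
          obtain ⟨hd1, hd2⟩ := Finset.mem_filter.1 hd
          exact (hloc' d (hinD Y d (hF2Y d hd1)) _ (hdom d hd1)).1 hd2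
      _ ≤ ∑ d ∈ FD D X, b d := by
          refine Finset.sum_le_sum_of_subset_of_nonneg ?_ fun d _ _ => hb0 d
          exact (Finset.filter_subset _ _).trans (Finset.filter_subset _ _)
  have ht0X : t₀ ≤ X := by
    have : t₀ * 1 ≤ t₀ * x3 := mul_le_mul_of_nonneg_left hx3 ht0.le
    linarith
  have hlow' : c / t₀ ^ 2 * X ^ 2 ≤ ∑ d ∈ FD D X, a d := by
    have h3X : d₀ ∈ FD D X := (hiff X d₀ hX0 hd₀).2 ht0X
    have h8 : c * (X / t₀) ^ 2 ≤ a d₀ := hlow (X / t₀) (by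
      rw [le_div_iff₀ ht0]
      linarith)
    calc c / t₀ ^ 2 * X ^ 2 = c * (X / t₀) ^ 2 := by ring
      _ ≤ a d₀ := h8
      _ ≤ ∑ d ∈ FD D X, a d := Finset.single_le_sum (fun d _ => ha0 d) h3X
  have hfin := gen_arith hc.le ht0 hε0 hε hη hsplit hA hB1 hB2 hlow'
  have hs0 : 0 ≤ ∑ d ∈ FD D X, a d := Finset.sum_nonneg fun d _ => ha0 d
  refine ⟨hfinU, ?_, ?_⟩
  · have h9 : 0 < c / t₀ ^ 2 * X ^ 2 := by positivity
    have h10 : (0 : ℝ) < ∑ d ∈ FD D X, a d := lt_of_lt_of_le h9 hlow'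
    have h11 : ((0 : ℕ) : ℝ) < ((∑ d ∈ FD D X, (Ui (K d) (X / |(d : ℝ)|)).ncard : ℕ) : ℝ) := by
      rw [Nat.cast_zero, Nat.cast_sum]
      exact h10
    exact Nat.cast_lt.1 h11
  · calc (1 / 2 - ε0) * ∑ d ∈ FD D X, a d ≤ (1 / 2 - ε) * ∑ d ∈ FD D X, a d :=
          mul_le_mul_of_nonneg_right (by linarith) hs0
      _ ≤ ∑ d ∈ FD D X, b d := hfin

end Pool.Agent.H33.HH
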