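import Pool.Agent.H33.HH.TC

/-!
# WEX: weights of the conductors
-/

set_option autoImplicit false

open NumberField Complex Filter Topology MeasureTheory
open scoped ContDiff

namespace Pool.Agent.H33.HH

theorem pf_WEX : T_WEX := by
  intro δ hδ hδ4
  refine ⟨fun u => Real.smoothTransition ((u - δ) / δ) * Real.smoothTransition ((1 - u) / δ),
    ⟨?_, ?_, ⟨δ, hδ, ?_⟩, ?_⟩, ?_, ?_⟩
  · have h1 : ContDiff ℝ ∞ (fun u : ℝ => (u - δ) / δ) := by fun_prop
    have h2 : ContDiff ℝ ∞ (fun u : ℝ => (1 - u) / δ) := by fun_prop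
    exact (Real.smoothTransition.contDiff.comp h1).mul (Real.smoothTransition.contDiff.comp h2)
  · intro u
    have a1 := Real.smoothTransition.nonneg ((u - δ) / δ)
    have a2 := Real.smoothTransition.nonneg ((1 - u) / δ)
    have b1 := Real.smoothTransition.le_one ((u - δ) / δ)
    have b2 := Real.smoothTransition.le_one ((1 - u) / δ)
    exact ⟨mul_nonneg a1 a2, mul_le_one₀ b1 a2 b2⟩
  · intro u hu
    have h : (u - δ) / δ ≤ 0 := div_nonpos_of_nonpos_of_nonneg (by linarith) hδ.le
    simp only [Real.smoothTransition.zero_of_nonpos h, zero_mul]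
  · intro u hu
    have h : (1 - u) / δ ≤ 0 := div_nonpos_of_nonpos_of_nonneg (by linarith) hδ.le
    simp only [Real.smoothTransition.zero_of_nonpos h, mul_zero]
  · intro u hu
    have h : (u - δ) / δ ≤ 0 := div_nonpos_of_nonpos_of_nonneg (by linarith) hδ.le
    simp only [Real.smoothTransition.zero_of_nonpos h, zero_mul]
  · intro u hu1 hu2
    have h1 : 1 ≤ (u - δ) / δ := by rw [le_div_iff₀ hδ]; linarith
    have h2 : 1 ≤ (1 - u) / δ := by rw [le_div_iff₀ hδ]; linarith
    simp only [Real.smoothTransition.one_of_one_le h1, Real.smoothTransition.one_of_one_le h2,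
      mul_one]

end Pool.Agent.H33.HH
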