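import Pool.Agent.H1.HH.LGP
import Pool.Agent.H1.HH.SEL
import Pool.Agent.H10.HH.COM
import Pool.Agent.H11.HH.GLH
import Pool.Agent.H13.HH.BSG
import Pool.Agent.H13.HH.LAT
import Pool.Agent.H16.HH.GRC
import Pool.Agent.H16.HH.IDL
import Pool.Agent.H17.HH.DRV
import Pool.Agent.H17.HH.PHN
import Pool.Agent.H17.HH.PHW
import Pool.Agent.H17.HH.THS
import Pool.Agent.H19.HH.NCE
import Pool.Agent.H2.HH.RPT
import Pool.Agent.H20.HH.CNT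
import Pool.Agent.H20.HH.NSM
import Pool.Agent.H20.PSQ.JM
import Pool.Agent.H21.HH.IDB
import Pool.Agent.H21.HH.PR2
import Pool.Agent.H21.HH.RCD
import Pool.Agent.H33.HH.GSM
import Pool.Agent.H33.HH.NS1
import Pool.Agent.H33.HH.PR1
import Pool.Agent.H33.HH.SEC
import Pool.Agent.H33.HH.SMF2
import Pool.Agent.H33.HH.WEX
import Pool.Agent.H35.HH.JID
import Pool.Agent.H36.HH.GA2
import Pool.Agent.H36.HH.SLG
import Pool.Agent.H36.HH.THB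
import Pool.Agent.H37.CV.All
import Pool.Agent.H37.HH.IEX
import Pool.Agent.H37.HH.NPR
import Pool.Agent.H37.HH.ORH
import Pool.Agent.H37.HH.PSQ
import Pool.Agent.H37.HH.QFO
import Pool.Agent.H37.HH.QUO
import Pool.Agent.H37.HH.SMM
import Pool.Agent.H37.HH.SQN
import Pool.Agent.H39.HH.QSB
import Pool.Agent.H4.HH.GFS
import Pool.Agent.H4.HH.PSB
import Pool.Agent.H40.HH.HSU
import Pool.Agent.H40.HH.JIS
import Pool.Agent.H41.HH.GLk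
import Pool.Agent.H44.HH.IDC
import Pool.Agent.H45.HH.CO1
import Pool.Agent.H45.HH.GA3
import Pool.Agent.H46.HH.NRM
import Pool.Agent.H47.HH.FDS
import Pool.Agent.H47.HH.KAP
import Pool.Agent.H47.HH.RLN
import Pool.Agent.H47.HH.SMK
import Pool.Agent.H47.HH.UCW
import Pool.Agent.H48.HH.GRB
import Pool.Agent.H48.HH.KGC
import Pool.Agent.H49.HH.FMM
import Pool.Agent.H49.HH.LTB
import Pool.Agent.H50.HH.HAL
import Pool.Agent.H50.HH.SLP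
import Pool.Agent.H50.HH.UN2
import Pool.Agent.H50.HH.UPT
import Pool.Agent.H51.HH.CHB
import Pool.Agent.H51.HH.IN1
import Pool.Agent.H51.HH.IV2
import Pool.Agent.H52.HH.CPM
import Pool.Agent.H53.HH.HAB
import Pool.Agent.H53.HH.LSM
import Pool.Agent.H54.HH.LOW
import Pool.Agent.H55.HH.GA1
import Pool.Agent.H57.HH.IDF
import Pool.Agent.H57.HH.UN1
import Pool.Agent.H57.HH.UNF
import Pool.Agent.H59.HH.GLA
import Pool.Agent.H59.HH.SLS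
import Pool.Agent.H60.HH.KXT
import Pool.Agent.H60.HH.PLN
import Pool.Agent.H60.HH.TWA
import Pool.Agent.H61.HH.GLB
import Pool.Agent.H61.HH.IV1
import Pool.Agent.H61.HH.PRB
import Pool.Agent.H62.HH.BQC
import Pool.Agent.H62.HH.ERS
import Pool.Agent.H66.HH.HEX
import Pool.Agent.H69.HH.CNB
import Pool.Agent.H69.HH.HLF
import Pool.Agent.H69.HH.LB3
import Pool.Agent.H69.HH.PR3
import Pool.Agent.H7.HH.EM2
import Pool.Agent.H77.HH.DVB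
import Pool.Agent.H77.HH.MZ
import Pool.Agent.H77.HH.PHM
import Pool.Agent.H78.HH.CLS
import Pool.Agent.H78.HH.CSU
import Pool.Agent.H78.HH.INF
import Pool.Agent.H78.HH.INV
import Pool.Agent.H8.HH.GAP
import Pool.Agent.H85.HH.SGD
import Pool.Agent.H86.HH.LA0
import Pool.Agent.H87.HH.DAP
import Pool.Agent.H87.HH.NVK
import Pool.Agent.H87.HH.RTB
import Pool.Agent.H87.HH.SSM
import Pool.Agent.H88.HH.THI
import Pool.Agent.H88.HH.TWS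
import Pool.Agent.H89.HH.BSM
import Pool.Agent.H89.HH.GEX
import Pool.Agent.H95.HH.IDS
import Pool.Agent.H95.HH.REA
import Pool.Agent.H97.HH.EM1
import Pool.Agent.H97.HH.KA
import Pool.Agent.H97.HH.TAI
import Pool.Agent.H99.HH.GRA
import Pool.Agent.H99.HH.THD
import Pool.Agent.H33.HH.Uni

/-!
# Half of all: all the rows (MP_347b49_nt)
-/

set_option autoImplicit false

namespace Pool.Agent.H33.HH

theorem a_EM1 : T_EM1 := Pool.Agent.H97.HH.pf_EM1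

theorem a_EM2 : T_EM2 := Pool.Agent.H7.HH.pf_EM2 a_EM1

theorem a_LA0 : T_LA0 := Pool.Agent.H86.HH.pf_LA0 a_EM2

theorem a_NRM : T_NRM := Pool.Agent.H46.HH.pf_NRM

theorem a_LTB : T_LTB := Pool.Agent.H49.HH.pf_LTB a_NRM

theorem a_LAT : T_LAT := Pool.Agent.H13.HH.pf_LAT a_LA0 a_LTB a_NRM

theorem a_IDL : T_IDL := Pool.Agent.H16.HH.pf_IDL a_NRM

theorem a_DRV : T_DRV := Pool.Agent.H17.HH.pf_DRV

theorem a_IDS : T_IDS := Pool.Agent.H95.HH.pf_IDS a_LAT a_IDL a_DRV a_NRM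

theorem a_IDC : T_IDC := Pool.Agent.H44.HH.pf_IDC a_IDS

theorem a_CNT : T_CNT := Pool.Agent.H20.HH.pf_CNT a_IDS a_IDC

theorem a_NS1 : T_NS1 := Pool.Agent.H33.HH.pf_NS1

theorem a_NSM : T_NSM := Pool.Agent.H20.HH.pf_NSM a_CNT a_NS1

theorem a_CPM : T_CPM := Pool.Agent.H52.HH.pf_CPM

theorem a_GEX : T_GEX := Pool.Agent.H89.HH.pf_GEX

theorem a_GFS : T_GFS := Pool.Agent.H4.HH.pf_GFS a_CPM

theorem a_HEX : T_HEX := Pool.Agent.H66.HH.pf_HEX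

theorem a_JID : T_JID := Pool.Agent.H35.HH.pf_JID

theorem a_JIS : T_JIS := Pool.Agent.H40.HH.pf_JIS

theorem a_THS : T_THS := Pool.Agent.H17.HH.pf_THS a_IDS

theorem a_THD : T_THD := Pool.Agent.H99.HH.pf_THD

theorem a_THB : T_THB := Pool.Agent.H36.HH.pf_THB a_THS a_THD

theorem a_KXT : T_KXT := Pool.Agent.H60.HH.pf_KXT a_THB

theorem a_PLN : T_PLN := Pool.Agent.H60.HH.pf_PLN a_THB

theorem a_THI : T_THI := Pool.Agent.H88.HH.pf_THI a_IDS a_THB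

theorem a_PSB : T_PSB := Pool.Agent.H4.HH.pf_PSB a_THB a_THI

theorem a_WEX : T_WEX := Pool.Agent.H33.HH.pf_WEX

theorem a_TWA : T_TWA := Pool.Agent.H60.HH.pf_TWA a_IDS a_IDC

theorem a_IDF : T_IDF := Pool.Agent.H57.HH.pf_IDF

theorem a_DAP : T_DAP := Pool.Agent.H87.HH.pf_DAP a_TWA a_IDF

theorem a_GRA : T_GRA := Pool.Agent.H99.HH.pf_GRA

theorem a_GRB : T_GRB := Pool.Agent.H48.HH.pf_GRB

theorem a_GRC : T_GRC := Pool.Agent.H16.HH.pf_GRC a_IDF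

theorem a_GSM : T_GSM := Pool.Agent.H33.HH.pf_GSM a_GRA a_GRB a_GRC a_LAT a_IDF

theorem a_GA1 : T_GA1 := Pool.Agent.H55.HH.pf_GA1 a_GSM a_GFS a_IDF

theorem a_GA2 : T_GA2 := Pool.Agent.H36.HH.pf_GA2

theorem a_LSM : T_LSM := Pool.Agent.H53.HH.pf_LSM a_IDF

theorem a_GA3 : T_GA3 := Pool.Agent.H45.HH.pf_GA3 a_LSM a_PLN a_GA2

theorem a_GAP : T_GAP := Pool.Agent.H8.HH.pf_GAP a_GA1 a_GA2 a_GA3 a_IDF

theorem a_HAB : T_HAB := Pool.Agent.H53.HH.pf_HAB a_IDF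

theorem a_HSU : T_HSU := Pool.Agent.H40.HH.pf_HSU a_IDF

theorem a_IN1 : T_IN1 := Pool.Agent.H51.HH.pf_IN1 a_IDC a_JIS a_IDF

theorem a_INF : T_INF := Pool.Agent.H78.HH.pf_INF a_IN1 a_JID a_HSU a_IDF

theorem a_RPT : T_RPT := Pool.Agent.H2.HH.pf_RPT a_KXT a_HAB a_HSU a_IDF

theorem a_UN1 : T_UN1 := Pool.Agent.H57.HH.pf_UN1 a_NRM

theorem a_UN2 : T_UN2 := Pool.Agent.H50.HH.pf_UN2 a_NRM

theorem a_UNF : T_UNF := Pool.Agent.H57.HH.pf_UNF a_UN1 a_UN2 a_NRM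

theorem a_BQC : T_BQC := Pool.Agent.H62.HH.pf_BQC

theorem a_BSG : T_BSG := Pool.Agent.H13.HH.pf_BSG

theorem a_CLS : T_CLS := Pool.Agent.H78.HH.pf_CLS a_NRM

theorem a_TWS : T_TWS := Pool.Agent.H88.HH.pf_TWS a_LAT a_CLS a_NRM

theorem a_SGD : T_SGD := Pool.Agent.H85.HH.pf_SGD a_TWS a_CPM

theorem a_SSM : T_SSM := Pool.Agent.H87.HH.pf_SSM a_SGD Pool.Agent.H37.CV.a_ZK

theorem a_BSM : T_BSM :=
  Pool.Agent.H89.HH.pf_BSM a_SSM a_BSG Pool.Agent.H37.CV.a_EN Pool.Agent.H37.CV.a_CX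
    Pool.Agent.H37.CV.a_DV a_NRM

theorem a_SLS : T_SLS := Pool.Agent.H59.HH.pf_SLS

theorem a_CO1 : T_CO1 := Pool.Agent.H45.HH.pf_CO1 a_NSM a_SLS

theorem a_SLP : T_SLP := Pool.Agent.H50.HH.pf_SLP

theorem a_SLG : T_SLG := Pool.Agent.H36.HH.pf_SLG

theorem a_LGP : T_LGP := Pool.Agent.H1.HH.pf_LGP

theorem a_COM : T_COM := Pool.Agent.H10.HH.pf_COM a_CO1 a_PSB a_SLP a_SLS a_SLG a_LGP a_HSU a_IDF

theorem a_GLA : T_GLA := Pool.Agent.H59.HH.GLA.pf_GLA a_IDF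

theorem a_GLB : T_GLB := Pool.Agent.H61.HH.pf_GLB

theorem a_GLH : T_GLH := Pool.Agent.H11.HH.pf_GLH a_CNT a_NS1

theorem a_GLk : T_GLk := Pool.Agent.H41.HH.pf_GLk a_GLA a_GLB a_GLH a_IDF

theorem a_ERS : T_ERS := Pool.Agent.H62.HH.pf_ERS a_GLk

theorem a_IEX : T_IEX := Pool.Agent.H37.HH.pf_IEX Pool.Agent.H37.CV.a_OR

theorem a_KAP : T_KAP := Pool.Agent.H47.HH.pf_KAP a_NRM

theorem a_KGC : T_KGC := Pool.Agent.H48.HH.pf_KGC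

theorem a_NCE : T_NCE := Pool.Agent.H19.HH.pf_NCE Pool.Agent.H37.CV.a_OR

theorem a_UCW : T_UCW := Pool.Agent.H47.HH.pf_UCW a_NRM

theorem a_PHN : T_PHN := Pool.Agent.H17.HH.pf_PHN

theorem a_NPR : T_NPR :=
  Pool.Agent.H37.HH.pf_NPR a_IEX a_NCE a_UCW a_PHN Pool.Agent.H37.CV.a_OR a_NRM

theorem a_ORH : T_ORH :=
  Pool.Agent.H37.HH.pf_ORH Pool.Agent.H37.CV.a_OR a_NCE a_UCW a_KAP a_PHN a_NRM

theorem a_QUO : T_QUO := Pool.Agent.H37.HH.pf_QUO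

theorem a_PHM : T_PHM := Pool.Agent.H77.HH.pf_PHM a_QUO a_PHN

theorem a_PHW : T_PHW := Pool.Agent.H17.HH.pf_PHW a_PHM a_CNT a_TWA

theorem a_QFO : T_QFO := Pool.Agent.H37.HH.pf_QFO a_ORH a_KGC a_PHN a_NRM

theorem a_PSQ : T_PSQ := Pool.Agent.H37.HH.pf_PSQ a_QFO a_IEX a_PHN a_NRM

theorem a_POS : T_POS := Pool.Agent.H37.HH.pf_POS a_PSQ a_BQC

theorem a_SEC : T_SEC := Pool.Agent.H33.HH.pf_SEC a_NRM a_GLk

theorem a_SEL : T_SEL := Pool.Agent.H1.HH.pf_SEL a_GLk a_IDF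

theorem a_RLN : T_RLN := Pool.Agent.H47.HH.pf_RLN

theorem a_CHB : T_CHB := Pool.Agent.H51.HH.pf_CHB a_IEX a_RLN a_ORH a_KAP a_UCW a_PHN a_NRM

theorem a_HLF : T_HLF := Pool.Agent.H69.HH.pf_HLF

theorem a_CSU : T_CSU := Pool.Agent.H78.HH.pf_CSU a_HLF a_IDF a_BQC

theorem a_DVB : T_DVB := Pool.Agent.H77.HH.pf_DVB

theorem a_QSB : T_QSB := Pool.Agent.H39.HH.pf_QSB a_CHB a_DVB a_NRM

theorem a_FMM : T_FMM := Pool.Agent.H49.HH.pf_FMM a_NRM a_QSB a_CSU a_BQC a_IEX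

theorem a_FAC : T_FAC := Pool.Agent.H47.HH.pf_FAC

theorem a_IV1 : T_IV1 := Pool.Agent.H61.HH.pf_IV1

theorem a_IV2 : T_IV2 := Pool.Agent.H51.HH.pf_IV2

theorem a_PR1 : T_PR1 := Pool.Agent.H33.HH.pf_PR1

theorem a_PR2 : T_PR2 := Pool.Agent.H21.HH.pf_PR2

theorem a_PR3 : T_PR3 := Pool.Agent.H69.HH.pf_PR3

theorem a_PRB : T_PRB := Pool.Agent.H61.HH.pf_PRB a_PR1 a_PR2 a_PR3

theorem a_INV : T_INV := Pool.Agent.H78.HH.pf_INV a_IV1 a_IV2 a_PRB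

theorem a_SMF : T_SMF :=
  Pool.Agent.H33.HH.pf_SMF a_HEX a_UNF a_GAP a_INF a_RPT a_DAP a_COM a_IDF a_SEC a_ERS

theorem a_SMM : T_SMM := Pool.Agent.H37.HH.pf_SMM a_POS a_SMF a_SEL a_PHN a_PHM a_NRM

theorem a_MZ : T_MZ := Pool.Agent.H77.HH.pf_MZ a_NPR a_PHM a_PHW a_TWA a_CNT

theorem a_NVK : T_NVK := Pool.Agent.H87.HH.pf_NVK a_FMM a_SMM a_MZ a_BSM a_GEX a_IEX a_PHM

theorem a_SMK : T_SMK := Pool.Agent.H47.HH.pf_SMK

theorem a_SQN : T_SQN := Pool.Agent.H37.HH.pf_SQN a_CNT a_NS1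

theorem a_UPT : T_UPT := Pool.Agent.H50.HH.pf_UPT a_NPR a_PHM a_FAC a_SMK a_SQN a_IEX a_PHN

theorem a_LOW : T_LOW := Pool.Agent.H54.HH.pf_LOW a_NVK a_UPT a_WEX a_FAC a_PHM a_IEX

theorem a_LB3 : T_LB3 := Pool.Agent.H69.HH.pf_LB3 a_MZ a_WEX a_IEX a_PHM a_NRM

theorem a_KA : T_KA := Pool.Agent.H97.HH.pf_KA a_LOW a_LB3 a_INV

theorem a_RCD : T_RCD := Pool.Agent.H21.HH.pf_RCD

theorem a_RTB : T_RTB := Pool.Agent.H87.HH.pf_RTB Pool.Agent.H20.PSQ.pf_JM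

theorem a_IDB : T_IDB := Pool.Agent.H21.HH.pf_IDB a_RCD a_RTB

theorem a_CNB : T_CNB := Pool.Agent.H69.HH.pf_CNB a_IDB

theorem a_FDS : T_FDS := Pool.Agent.H47.HH.pf_FDS

theorem a_TSD : T_TSD := Pool.Agent.H47.HH.pf_TSD

theorem a_TAI : T_TAI := Pool.Agent.H97.HH.pf_TAI a_PRB a_IDB a_CNB a_FDS a_TSD

theorem a_REA : T_REA := Pool.Agent.H95.HH.pf_REA a_PRB

theorem a_HAL : T_HAL := Pool.Agent.H50.HH.pf_HAL a_KA a_TAI a_REA a_FDS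

theorem a_TAD : T_TAD := pf_TAD a_PRB a_IDB a_CNB a_FDS a_TSD

theorem a_GEN : T_GEN := pf_GEN a_KA a_TAD a_REA a_FDS

end Pool.Agent.H33.HH
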