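import Pool.Agent.H37.CV.Defs

/-!
# Central values of all ray class characters of an imaginary quadratic field: definitions
(MP_347b49_nt, page H33_HALF.md in the team store)
-/

set_option autoImplicit false

open NumberField Complex Filter Topology MeasureTheory
open scoped ContDiff nonZeroDivisors

namespace Pool.Agent.H33.HH

open Pool.Agent.H28.RC Pool.Agent.H37.CV

noncomputable section

/-! ### The field -/

/-- imaginary quadratic fields -/
class IQ (K : Type) [Field K] [NumberField K] : Prop where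
  two : Module.finrank ℚ K = 2
  neg : discr K < 0

section NF

variable (K : Type) [Field K] [NumberField K]

/-- a complex embedding -/
def em : K →+* ℂ := Classical.arbitrary _

/-- the number of units (finite for imaginary quadratic fields) -/
def wu : ℝ := (Nat.card (𝓞 K)ˣ : ℝ)

/-- the class number -/
def hc : ℝ := (classNumber K : ℝ)

/-- the square root of the absolute value of the discriminant -/
def sd : ℝ := Real.sqrt |(discr K : ℝ)|

/-- the density of the ideals -/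
def rh : ℝ := 2 * Real.pi * hc K / (wu K * sd K)

/-- the primes of norm at most `P` -/
abbrev SP (P : ℝ) : Finset (PrI K) := PM K P

/-- the density of the ideals prime to the small primes -/
def rk (P : ℝ) : ℝ := rh K * ∏ p ∈ SP K P, (1 - 1 / np p)

variable {K}

/-- all the prime factors of `I` have norm greater than `P` -/
def Cp (P : ℝ) (I : Ideal (𝓞 K)) : Prop := ∀ p : PrI K, I ≤ p.1 → P < np p

/-- all the prime factors of `I` have norm at most `P` -/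
def Sm' (P : ℝ) (I : Ideal (𝓞 K)) : Prop := I ≠ ⊥ ∧ ∀ p : PrI K, I ≤ p.1 → np p ≤ P

/-- `γ I = J` -/
def Mu (γ : K) (I J : Ideal (𝓞 K)) : Prop :=
  FractionalIdeal.spanSingleton (𝓞 K)⁰ γ * (I : FractionalIdeal (𝓞 K)⁰ K) =
    (J : FractionalIdeal (𝓞 K)⁰ K)

/-- the kernel: the number of `γ` with `γ J = I` and `(γ - 1) J ⊆ f` -/
def kap (f I J : Ideal (𝓞 K)) : ℕ := {γ : K | Mu γ J I ∧ ∃ t, Mu (γ - 1) J (f * t)}.ncard

/-- the `γ` with `γ b ⊆ a`, `(γ - 1) b ⊆ l` and cofactors prime to the small primes -/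
def Ga (P : ℝ) (a b l : Ideal (𝓞 K)) : Set K :=
  {γ | (∃ m, m ≠ ⊥ ∧ Cp P m ∧ Mu γ b (a * m)) ∧ ∃ q, q ≠ ⊥ ∧ Cp P q ∧ Mu (γ - 1) b (l * q)}

/-- Euler's function -/
def ph (I : Ideal (𝓞 K)) : ℝ := nm I * ∏ p ∈ pf I, (1 - 1 / np p)

end NF

/-! ### The weights -/

/-- the weight of the conductors -/
structure IsW (W : ℝ → ℝ) : Prop where
  smooth : ContDiff ℝ ∞ W
  bd : ∀ u, 0 ≤ W u ∧ W u ≤ 1
  low : ∃ δ : ℝ, 0 < δ ∧ ∀ u, u ≤ δ → W u = 0
  high : ∀ u, 1 ≤ u → W u = 0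

/-- the weight of the sum; the last condition kills the pole of the trivial character -/
structure IsG (G : ℝ → ℝ) : Prop where
  smooth : ContDiff ℝ ∞ G
  low : ∀ u, u ≤ 1 → G u = 1
  high : ∀ u, 3 ≤ u → G u = 0
  mean : ∫ u in Set.Ioi (0 : ℝ), G u * u ^ (-(1 / 2) : ℝ) = 0

/-- the cutoff `η(u) u^(-1/2)`, with `η(u) + η(1/u) = 1` -/
structure IsH (H : ℝ → ℝ) : Prop where
  smooth : ContDiff ℝ ∞ H
  nonneg : ∀ u, 0 ≤ H u
  low : ∀ u, u ≤ 1 / 2 → H u = 0
  high : ∀ u, 2 ≤ u → H u = u ^ (-(1 / 2) : ℝ)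
  sym : ∀ u, 0 < u → u ^ (1 / 2 : ℝ) * H u + u ^ (-(1 / 2) : ℝ) * H u⁻¹ = 1

/-- `u W(u)` -/
def w1 (W : ℝ → ℝ) (u : ℝ) : ℝ := u * W u

/-- `∫ u W(u)` -/
def W1 (W : ℝ → ℝ) : ℝ := ∫ u in Set.Ioi (0 : ℝ), u * W u

/-- `∫ W(u)` -/
def W0 (W : ℝ → ℝ) : ℝ := ∫ u in Set.Ioi (0 : ℝ), W u

/-- the coefficient `t^(-1/2) G(t / Z)` -/
def gz (G : ℝ → ℝ) (Z t : ℝ) : ℝ := t ^ (-(1 / 2) : ℝ) * G (t / Z)

/-! ### The mollified sums -/

section NF2

variable (K : Type) [Field K] [NumberField K]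

/-- the primes of the mollifier -/
def AP (P y : ℝ) : Finset (PrI K) := by
  classical exact PM K y \ PM K P

/-- the squarefree ideals of the mollifier, as sets of primes -/
def DP (P y : ℝ) : Finset (Finset (PrI K)) := DS np (AP K P y) y

/-- Selberg's weights -/
def lm (P y : ℝ) (S : Finset (PrI K)) : ℝ := xS np (AP K P y) y S

variable {K}

open scoped Classical in
/-- the sum over the ideals prime to the small primes -/
def sumC (P : ℝ) (f : Ideal (𝓞 K) → ℝ) : ℝ := ∑' I : NI K, if Cp P I.1 then f I.1 else 0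

open scoped Classical in
/-- the mollified central value -/
def Bv (P y Z : ℝ) (G : ℝ → ℝ) (ψ : Ideal (𝓞 K) → ℂ) : ℂ :=
  (∑ S ∈ DP K P y, ((lm K P y S * nS np S ^ (-(1 / 2) : ℝ) : ℝ) : ℂ) * ψ (idS S)) *
    ∑' m : NI K, if Cp P m.1 then ((gz G Z (nm m.1) : ℝ) : ℂ) * ψ m.1 else 0

/-- the form with the kernel for the pair `a`, `b` -/
def Qab (P Z : ℝ) (G : ℝ → ℝ) (f a b : Ideal (𝓞 K)) : ℝ :=
  sumC P fun m => sumC P fun n => (kap f (a * m) (b * n) : ℝ) * (gz G Z (nm m) * gz G Z (nm n))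

/-- the form with the kernel -/
def Qf (P y Z : ℝ) (G : ℝ → ℝ) (f : Ideal (𝓞 K)) : ℝ :=
  ∑ S ∈ DP K P y, ∑ T ∈ DP K P y, lm K P y S * lm K P y T * (nS np S * nS np T) ^ (-(1 / 2) : ℝ) *
    Qab P Z G f (idS S) (idS T)

/-- the total weight of the conductors -/
def TW (K : Type) [Field K] [NumberField K] (P Q : ℝ) (W : ℝ → ℝ) : ℝ :=
  sumC (K := K) P fun q => W (nm q / Q) * nm q

/-- the second moment -/
def SM (P y Z Q : ℝ) (W G : ℝ → ℝ) (k : Ideal (𝓞 K)) : ℝ :=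
  sumC P fun q => W (nm q / Q) * nm q * Qf P y Z G (k * q)

end NF2

/-! ### Asymptotic analysis -/

section NF3

variable (K : Type) [Field K] [NumberField K]

/-- the sum over the complementary divisors -/
def Th (W : ℝ → ℝ) (x : ℝ) : ℝ := ∑' l : NI K, (nm l.1)⁻¹ * w1 W (x / nm l.1)

/-- its limit -/
def Thi (W : ℝ → ℝ) : ℝ := rh K * W0 W

/-- the difference -/
def Rr (W : ℝ → ℝ) (x : ℝ) : ℝ := Th K W x - Thi K W

/-- the integral over the plane with the limit -/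
def Ji (G H : ℝ → ℝ) (t : ℝ) : ℝ := Real.pi * ∫ u in Set.Ioi (0 : ℝ), H u * G (u * t)

/-- the integral over the plane with the difference -/
def Kx (W G H : ℝ → ℝ) (x t : ℝ) : ℝ :=
  ∫ g : ℂ, H (‖g‖ ^ 2) * G (‖g‖ ^ 2 * t) * Rr K W (‖g - 1‖ ^ 2 * x)

/-- the same without the factor `G` -/
def K0 (W H : ℝ → ℝ) (x : ℝ) : ℝ := ∫ g : ℂ, H (‖g‖ ^ 2) * Rr K W (‖g - 1‖ ^ 2 * x)

/-- the transition function -/
def ps (W H : ℝ → ℝ) (x : ℝ) : ℝ :=
  1 + 2 * x / Real.pi * (wu K / (hc K * W1 W)) * K0 K W H x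

end NF3

end

end Pool.Agent.H33.HH
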