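import Pool.Agent.H33.HH.Defs

/-!
# Targets, part A: lattice sums and analysis (sections 3 and 6.3 - 6.5 of the page H33_HALF.md)
-/

set_option autoImplicit false

open NumberField Complex Filter Topology MeasureTheory
open scoped ContDiff nonZeroDivisors

namespace Pool.Agent.H33.HH

open Pool.Agent.H28.RC Pool.Agent.H37.CV

noncomputable section

/-! ### Lattice sums -/

/-- EM1: sums over the integers. -/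
def T_EM1 : Prop := ∀ k : ℕ, 2 ≤ k → ∃ C : ℝ, 0 ≤ C ∧ ∀ g : ℝ → ℝ, ContDiff ℝ ∞ g →
  HasCompactSupport g → |(∑' n : ℤ, g n) - ∫ x, g x| ≤ C * ∫ x, |iteratedDeriv k g x|

/-- EM2: sums over pairs of integers. -/
def T_EM2 : Prop := ∀ k : ℕ, 2 ≤ k → ∃ C : ℝ, 0 ≤ C ∧ ∀ (f : ℝ × ℝ → ℝ) (p : ℝ × ℝ) (r M : ℝ),
  ContDiff ℝ ∞ f → 0 ≤ r → (∀ x : ℝ × ℝ, (r < |x.1 - p.1| ∨ r < |x.2 - p.2|) → f x = 0) →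
  (∀ x, ‖iteratedFDeriv ℝ k f x‖ ≤ M) →
  |(∑' z : ℤ × ℤ, f (z.1, z.2)) - ∫ x, f x| ≤ C * (1 + r) ^ 2 * M

/-- NRM: the norm and the complex absolute value. -/
def T_NRM : Prop := ∀ (K : Type) [Field K] [NumberField K] [IQ K],
  IsTotallyComplex K ∧ 0 < wu K ∧ Finite (𝓞 K)ˣ ∧ (∀ u : (𝓞 K)ˣ, ‖em K (u : K)‖ = 1) ∧
  (∀ x : K, ‖em K x‖ ^ 2 = ((|Algebra.norm ℚ x| : ℚ) : ℝ)) ∧
  (∀ (x : K) (I : FractionalIdeal (𝓞 K)⁰ K), x ∈ I → x ≠ 0 →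
    ((FractionalIdeal.absNorm I : ℚ) : ℝ) ≤ ‖em K x‖ ^ 2) ∧
  ∀ (γ : K) (I J : Ideal (𝓞 K)), Mu γ I J → ‖em K γ‖ ^ 2 * nm I = nm J

/-- LTB: lattice bases of the fractional ideals. -/
def T_LTB : Prop := ∀ (K : Type) [Field K] [NumberField K] [IQ K]
  (J : FractionalIdeal (𝓞 K)⁰ K), J ≠ 0 → ∃ e₁ e₂ : K,
  (∀ x : K, x ∈ J ↔ ∃ m n : ℤ, x = m * e₁ + n * e₂) ∧
  (∀ m n : ℤ, m * e₁ + n * e₂ = 0 → m = 0 ∧ n = 0) ∧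
  |(em K e₁ * (starRingEnd ℂ) (em K e₂)).im| = sd K / 2 * ((FractionalIdeal.absNorm J : ℚ) : ℝ)

/-- LAT: smooth sums over fractional ideals. -/
def T_LAT : Prop := ∀ (K : Type) [Field K] [NumberField K] [IQ K] (k : ℕ), 2 ≤ k →
  ∃ C : ℝ, 0 ≤ C ∧ ∀ (J : FractionalIdeal (𝓞 K)⁰ K) (c : ℂ) (R M : ℝ) (F : ℂ → ℝ), J ≠ 0 →
  0 < R → ((FractionalIdeal.absNorm J : ℚ) : ℝ) ≤ R ^ 2 → ContDiff ℝ ∞ F →
  (∀ z, 1 < ‖z‖ → F z = 0) → (∀ z, ‖iteratedFDeriv ℝ k F z‖ ≤ M) →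
  |(∑' x : {x : K // x ∈ J}, F ((em K x.1 - c) / R)) -
    2 * R ^ 2 / (sd K * ((FractionalIdeal.absNorm J : ℚ) : ℝ)) * ∫ z, F z| ≤
    C * M * (R ^ 2 / ((FractionalIdeal.absNorm J : ℚ) : ℝ)) ^ (1 - (k : ℝ) / 2)

/-- IDL: ideals and elements of fractional ideals. -/
def T_IDL : Prop := ∀ (K : Type) [Field K] [NumberField K] [IQ K],
  ∃ J : ClassGroup (𝓞 K) → FractionalIdeal (𝓞 K)⁰ K, (∀ i, J i ≠ 0) ∧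
  ∀ f : ℝ → ℝ, (∃ b, ∀ u, b ≤ u → f u = 0) → ∑' l : NI K, f (nm l.1) = (wu K)⁻¹ *
    ∑ i, ∑' x : {x : K // x ∈ J i ∧ x ≠ 0},
      f (‖em K x.1‖ ^ 2 / ((FractionalIdeal.absNorm (J i) : ℚ) : ℝ))

/-- DRV: derivatives of radial functions. -/
def T_DRV : Prop := ∀ (k : ℕ) (b : ℝ), 0 < b → ∃ C : ℝ, 0 ≤ C ∧ ∀ (f : ℝ → ℝ) (M : ℝ),
  ContDiff ℝ ∞ f → (∀ j ≤ k, ∀ u ∈ Set.Icc 0 b, |iteratedDeriv j f u| ≤ M) →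
  (∀ u, b ≤ u → f u = 0) → ContDiff ℝ ∞ (fun z : ℂ => f (b * ‖z‖ ^ 2)) ∧
  ∀ z : ℂ, ‖iteratedFDeriv ℝ k (fun z : ℂ => f (b * ‖z‖ ^ 2)) z‖ ≤ C * M

/-- IDS: smooth sums over the ideals. -/
def T_IDS : Prop := ∀ (K : Type) [Field K] [NumberField K] [IQ K] (k : ℕ) (b : ℝ), 2 ≤ k →
  0 < b → ∃ C : ℝ, 0 ≤ C ∧ ∀ (f : ℝ → ℝ) (M T : ℝ), ContDiff ℝ ∞ f → (∀ u, b ≤ u → f u = 0) →
  (∀ j ≤ k, ∀ u ∈ Set.Icc 0 b, |iteratedDeriv j f u| ≤ M) → 1 ≤ T →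
  |(∑' l : NI K, f (nm l.1 / T)) - rh K * T * (∫ u in Set.Ioi (0 : ℝ), f u) +
    hc K / wu K * f 0| ≤ C * M * T ^ (1 - (k : ℝ) / 2)

/-- IDC: smooth sums over the ideals prime to the small primes. -/
def T_IDC : Prop := ∀ (K : Type) [Field K] [NumberField K] [IQ K] (P b : ℝ) (k : ℕ),
  (SP K P).Nonempty → 2 ≤ k → 0 < b → ∃ C : ℝ, 0 ≤ C ∧ ∀ (f : ℝ → ℝ) (M T : ℝ),
  ContDiff ℝ ∞ f → (∀ u, b ≤ u → f u = 0) →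
  (∀ j ≤ k, ∀ u ∈ Set.Icc 0 b, |iteratedDeriv j f u| ≤ M) → 1 ≤ T →
  |sumC (K := K) P (fun n => f (nm n / T)) - rk K P * T * (∫ u in Set.Ioi (0 : ℝ), f u)| ≤
    C * M * T ^ (1 - (k : ℝ) / 2)

/-- CNT: counting the ideals prime to the small primes. -/
def T_CNT : Prop := ∀ (K : Type) [Field K] [NumberField K] [IQ K] (P : ℝ), ∃ C : ℝ, 0 ≤ C ∧
  ∀ x : ℝ, 1 ≤ x →
  |({I : Ideal (𝓞 K) | I ≠ ⊥ ∧ Cp P I ∧ nm I ≤ x}.ncard : ℝ) - rk K P * x| ≤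
    C * x ^ (3 / 4 : ℝ)

/-- functions with a transition at `T` -/
structure Sl (T A : ℝ) (f f' : ℝ → ℝ) : Prop where
  der : ∀ t, 0 < t → HasDerivAt f (f' t) t
  con : ContinuousOn f' (Set.Ioi 0)
  n1 : ∀ t, 0 < t → t ≤ T → |f t - 1| ≤ A * (t / T) ^ (1 / 2 : ℝ) ∧
    |f' t| ≤ A / t * (t / T) ^ (1 / 2 : ℝ)
  n2 : ∀ t, T ≤ t → |f t| ≤ A * (t / T) ^ (-(1 / 2) : ℝ) ∧
    |f' t| ≤ A / t * (t / T) ^ (-(1 / 2) : ℝ)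

/-- the logarithmic mean of a function with a transition at `1` -/
def Lg (f : ℝ → ℝ) : ℝ := (∫ u in Set.Ioc (0 : ℝ) 1, (f u - 1) / u) + ∫ u in Set.Ioi (1 : ℝ), f u / u

/-- NSM: harmonic sums. -/
def T_NSM : Prop := ∀ (K : Type) [Field K] [NumberField K] [IQ K] (P : ℝ), ∃ g C : ℝ, 0 ≤ C ∧
  ∀ (f f' : ℝ → ℝ) (T A : ℝ), 1 ≤ T → 0 ≤ A → Sl T A f f' →
  Summable (fun I : NI K => |f (nm I.1) / nm I.1|) ∧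
  |sumC (K := K) P (fun n => f (nm n) / nm n) -
    rk K P * (Real.log T + g + Lg (fun u => f (T * u)))| ≤ C * A * T ^ (-(1 / 4) : ℝ)

/-! ### The weights -/

/-- HEX: the cutoff exists. -/
def T_HEX : Prop := ∃ H : ℝ → ℝ, IsH H

/-- GEX: the weight with mean value zero exists. -/
def T_GEX : Prop := ∃ G : ℝ → ℝ, IsG G

/-- WEX: weights of the conductors. -/
def T_WEX : Prop := ∀ δ : ℝ, 0 < δ → δ < 1 / 4 → ∃ W : ℝ → ℝ, IsW W ∧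
  (∀ u, u ≤ δ → W u = 0) ∧ ∀ u, 2 * δ ≤ u → u ≤ 1 - δ → W u = 1

/-! ### The functions `Th`, `Ji`, `Kx`, `ps` -/

/-- THB: the difference is bounded and small. -/
def T_THB : Prop := ∀ (K : Type) [Field K] [NumberField K] [IQ K] (W : ℝ → ℝ), IsW W →
  ContDiff ℝ 1 (Rr K W) ∧ (∀ x ≤ 0, Rr K W x = - Thi K W) ∧
  ∀ A : ℕ, ∃ C : ℝ, 0 ≤ C ∧ ∀ x, 0 ≤ x → |Rr K W x| ≤ C / (1 + x) ^ A ∧
    |x * deriv (Rr K W) x| ≤ C / (1 + x) ^ A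

/-- THI: the integral of the difference. -/
def T_THI : Prop := ∀ (K : Type) [Field K] [NumberField K] [IQ K] (W : ℝ → ℝ), IsW W →
  IntegrableOn (Rr K W) (Set.Ioi 0) ∧ ∫ x in Set.Ioi (0 : ℝ), Rr K W x = - (hc K / wu K * W1 W)

/-- JIS: the function `Ji` is smooth at `0`. -/
def T_JIS : Prop := ∀ G H : ℝ → ℝ, IsG G → IsH H → ∃ J : ℝ → ℝ, ContDiff ℝ ∞ J ∧
  (∀ u, 6 ≤ u → J u = 0) ∧ ∀ t, 0 < t → Ji G H t = J t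

/-- JID: the identity which kills the main terms. -/
def T_JID : Prop := ∀ G H : ℝ → ℝ, IsG G → IsH H → ∀ a b : ℝ, 0 < a → 0 < b →
  a⁻¹ * (∫ t in Set.Ioi (0 : ℝ), G t * Ji G H (b / a * t)) +
    b⁻¹ * (∫ t in Set.Ioi (0 : ℝ), G t * Ji G H (a / b * t)) = 0

/-- KXT: the factor `G` can be taken out. -/
def T_KXT : Prop := ∀ (K : Type) [Field K] [NumberField K] [IQ K] (W G H : ℝ → ℝ), IsW W →
  IsG G → IsH H → ∃ C : ℝ, 0 ≤ C ∧ ∀ u x t : ℝ, 0 < u → u ≤ 1 → 0 < x → 0 < t → t ≤ u * x →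
  |Kx K W G H x t - G t * K0 K W H x| ≤ C * u ^ (1 / 2 : ℝ) / x

/-- PSB: the transition function. -/
def T_PSB : Prop := ∀ (K : Type) [Field K] [NumberField K] [IQ K] (W H : ℝ → ℝ), IsW W →
  0 < W1 W → IsH H → ∃ (f' : ℝ → ℝ) (A : ℝ), 0 ≤ A ∧ Sl 1 A (ps K W H) f'

/-- PLN: integrals over the plane. -/
def T_PLN : Prop := ∀ (K : Type) [Field K] [NumberField K] [IQ K] (W G H : ℝ → ℝ), IsW W →
  IsG G → IsH H → ∀ x t : ℝ, 0 < x → 0 < t →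
  Integrable (fun g : ℂ => H (‖g‖ ^ 2) * G (‖g‖ ^ 2 * t) * Th K W (‖g - 1‖ ^ 2 * x)) ∧
  ∫ g : ℂ, H (‖g‖ ^ 2) * G (‖g‖ ^ 2 * t) * Th K W (‖g - 1‖ ^ 2 * x) =
    Thi K W * Ji G H t + Kx K W G H x t

/-! ### Uniform smoothness -/

/-- CPM: uniform bounds of derivatives by compactness. -/
def T_CPM : Prop := ∀ (F : (ℝ × ℝ) × ℂ → ℝ) (S : Set (ℝ × ℝ)) (r : ℝ), ContDiff ℝ ∞ F →
  IsCompact S → (∀ p ∈ S, ∀ z : ℂ, r < ‖z‖ → F (p, z) = 0) → ∀ k : ℕ, ∃ C : ℝ, 0 ≤ C ∧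
  ∀ p ∈ S, ∀ z : ℂ, ‖iteratedFDeriv ℝ k (fun z => F (p, z)) z‖ ≤ C

/-- the function of the sum over `γ`, rescaled -/
def Fz (W G H : ℝ → ℝ) (R M : ℝ) (z : ℂ) : ℝ :=
  H (‖1 + R * z‖ ^ 2) * G (‖1 + R * z‖ ^ 2 * M) * w1 W (‖z‖ ^ 2)

/-- GFS: its derivatives are bounded uniformly. -/
def T_GFS : Prop := ∀ W G H : ℝ → ℝ, IsW W → IsG G → IsH H → ∀ k : ℕ, ∃ C : ℝ, 0 ≤ C ∧
  ∀ R M : ℝ, 0 < R → 0 < M → ContDiff ℝ ∞ (Fz W G H R M) ∧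
  (∀ z, 1 < ‖z‖ → Fz W G H R M z = 0) ∧ (∀ᶠ z in 𝓝 0, Fz W G H R M z = 0) ∧
  ∀ z, ‖iteratedFDeriv ℝ k (Fz W G H R M) z‖ ≤ C

end

end Pool.Agent.H33.HH
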