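import Pool.Agent.H33.HH.TA

/-!
# Targets, part B: the second moment (section 6 of the page H33_HALF.md)
-/

set_option autoImplicit false

open NumberField Complex Filter Topology MeasureTheory
open scoped ContDiff nonZeroDivisors

namespace Pool.Agent.H33.HH

open Pool.Agent.H28.RC Pool.Agent.H37.CV

noncomputable section

section defs

variable {K : Type} [Field K] [NumberField K]

/-- the density of the local conditions at the small primes -/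
def om (P : ℝ) (I : Ideal (𝓞 K)) : ℝ :=
  ∏ p ∈ SP K P, open scoped Classical in if I ≤ p.1 then 1 - 1 / np p else 1 - 2 / np p

open scoped Classical in
/-- the density of the `γ` -/
def gs (P : ℝ) (S : Finset (PrI K)) (b k l : Ideal (𝓞 K)) : ℝ :=
  (∏ p ∈ S, if l ≤ p.1 then (if b ≤ p.1 then np p else 0) else 1) * om P (k * l)

open scoped Classical in
/-- the coefficients of the expansion at the primes of `a` -/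
def ha (R : Finset (PrI K)) (b : Ideal (𝓞 K)) : ℝ :=
  ∏ p ∈ R, ((if b ≤ p.1 then np p else 0) - 1)

open scoped Classical in
/-- the coefficients of the expansion at the small primes -/
def hk (P : ℝ) (k : Ideal (𝓞 K)) (R : Finset (PrI K)) : ℝ :=
  (∏ p ∈ R, if k ≤ p.1 then 0 else 1 / np p) *
    ∏ p ∈ SP K P \ R, if k ≤ p.1 then 1 - 1 / np p else 1 - 2 / np p

/-- the lattice of the differences of the `γ` -/
def Jl (P : ℝ) (a b l : Ideal (𝓞 K)) : FractionalIdeal (𝓞 K)⁰ K :=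
  ((idS (SP K P) * (a ⊓ l) : Ideal (𝓞 K)) : FractionalIdeal (𝓞 K)⁰ K) *
    ((b : FractionalIdeal (𝓞 K)⁰ K))⁻¹

/-- the off-diagonal sum -/
def Oab (P Z Q : ℝ) (W G H : ℝ → ℝ) (k a b : Ideal (𝓞 K)) : ℝ :=
  sumC P fun n => ∑' l : NI K, ∑' γ : Ga P a (b * n) (k * l.1),
    (nm a / (nm b * nm n)) ^ (1 / 2 : ℝ) * gz G Z (nm n) *
    (H (‖em K γ.1‖ ^ 2) * G (‖em K γ.1‖ ^ 2 * (nm b * nm n) / (nm a * Z))) *
    (Q * w1 W (‖em K γ.1 - 1‖ ^ 2 * (nm b * nm n) / (nm k * nm l.1 * Q)))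

/-- the diagonal sum -/
def Dab (P Z Q : ℝ) (W G : ℝ → ℝ) (a b : Ideal (𝓞 K)) : ℝ :=
  TW K P Q W * sumC P fun m => sumC P fun n =>
    open scoped Classical in if a * m = b * n then gz G Z (nm m) * gz G Z (nm n) else 0

/-- the sum of the form over the conductors -/
def Bab (P Z Q : ℝ) (W G : ℝ → ℝ) (k a b : Ideal (𝓞 K)) : ℝ :=
  sumC P fun q => W (nm q / Q) * nm q * Qab P Z G (k * q) a b

/-- the sum over `n` and the divisors `r = R₁ R₀` of `a` times the small primes -/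
def Nab (P Z Q : ℝ) (G : ℝ → ℝ) (k : Ideal (𝓞 K)) (S : Finset (PrI K)) (b : Ideal (𝓞 K))
    (f : ℝ → ℝ → ℝ) : ℝ :=
  2 / sd K * (1 / (nS np S * nm k)) * sumC P fun n => G (nm n / Z) *
    ∑ R₁ ∈ S.powerset, ∑ R₀ ∈ (SP K P).powerset, ha R₁ (b * n) * hk P k R₀ *
      (Q / (nS np R₁ * nS np R₀)) *
      f (nm b * nm n / (nm k * (nS np R₁ * nS np R₀) * Q)) (nm b * nm n / (nS np S * Z))

/-- the main term of the off-diagonal sum, with the transition function -/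
def Eab (P Z Q : ℝ) (W G H : ℝ → ℝ) (k : Ideal (𝓞 K)) (S : Finset (PrI K))
    (b : Ideal (𝓞 K)) : ℝ :=
  1 / 2 * rh K * W1 W * Q ^ 2 * (1 / (nS np S * nm b)) * sumC P fun n => 1 / nm n *
    (G (nm n / Z) * G (nm b * nm n / (nS np S * Z))) *
    ∑ R₁ ∈ S.powerset, ∑ R₀ ∈ (SP K P).powerset, ha R₁ (b * n) * hk P k R₀ *
      ps K W H (nm b * nm n / (nm k * (nS np R₁ * nS np R₀) * Q))

open scoped Classical in
/-- the error terms -/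
def Er (Q δ : ℝ) (S T : Finset (PrI K)) : ℝ :=
  Q ^ (2 - δ) * (nS np (S ∩ T) / (nS np S * nS np T))

open scoped Classical in
/-- the coefficients of the quadratic form -/
def Vst (c : ℝ) (S T : Finset (PrI K)) : ℝ :=
  ∑ E ∈ (S ∩ T).powerset, fS np E * (c + Real.log (nS np E) - Real.log (nS np S) -
    Real.log (nS np T) + Real.log (nS np (S ∩ T)))

variable (K) in
/-- the quadratic form at Selberg's weights -/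
def Vq (P θ Q : ℝ) : ℝ :=
  rk K P * ∑ S ∈ DP K P (Q ^ θ), ∑ T ∈ DP K P (Q ^ θ), lm K P (Q ^ θ) S * lm K P (Q ^ θ) T *
    (Vst (Real.log Q) S T / (nS np S * nS np T))

end defs

/-- the parameters: `y = Q^θ`, `Z = Q^(1+e)` -/
structure Par (θ e : ℝ) : Prop where
  θpos : 0 < θ
  epos : 0 < e
  le : θ + 8 * e ≤ 1

/-- IDF: finite sets of primes and ideals. -/
def T_IDF : Prop := ∀ (K : Type) [Field K] [NumberField K] [IQ K] (P y : ℝ), 1 ≤ y →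
  ∀ S ∈ DP K P y, idS S ≠ ⊥ ∧ Cp P (idS S) ∧ nm (idS S) = nS np S ∧ 1 ≤ nS np S ∧ nS np S ≤ y ∧
    pf (idS S) = S ∧ (∀ p ∈ S, P < np p ∧ np p ≤ y) ∧
    ∀ (b l : Ideal (𝓞 K)), b ≠ ⊥ → l ≠ ⊥ → Cp P b →
      (idS S ⊔ l ∣ b ↔ ∀ p ∈ S, l ≤ p.1 → b ≤ p.1)

/-- GRS: the `γ` form a union of cosets. -/
def T_GRS : Prop := ∀ (K : Type) [Field K] [NumberField K] [IQ K] (P y : ℝ),
  (SP K P).Nonempty → 1 ≤ y → ∀ S ∈ DP K P y, ∀ b k l : Ideal (𝓞 K), b ≠ ⊥ → Cp P b → Sm' P k → l ≠ ⊥ →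
  Jl P (idS S) b (k * l) ≠ 0 ∧
  ((FractionalIdeal.absNorm (Jl P (idS S) b (k * l)) : ℚ) : ℝ) * nm b ≤
    nS np (SP K P) * (nS np S * nm k * nm l) ∧
  ∃ X : Finset K, (X.card : ℝ) / ((FractionalIdeal.absNorm (Jl P (idS S) b (k * l)) : ℚ) : ℝ) =
      gs P S b k l * nm b / (nS np S * nm k * nm l) ∧
    (X.card : ℝ) ≤ nS np (SP K P) ∧
    (∀ x ∈ X, ∀ y ∈ X, x - y ∈ Jl P (idS S) b (k * l) → x = y) ∧
    ∀ γ : K, γ ∈ Ga P (idS S) b (k * l) ↔ ∃ x ∈ X, γ - x ∈ Jl P (idS S) b (k * l)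

/-- GSM: smooth sums over the `γ`. -/
def T_GSM : Prop := ∀ (K : Type) [Field K] [NumberField K] [IQ K] (P : ℝ) (j : ℕ),
  (SP K P).Nonempty → 2 ≤ j →
  ∃ C : ℝ, 0 ≤ C ∧ ∀ y : ℝ, 1 ≤ y → ∀ S ∈ DP K P y, ∀ b k l : Ideal (𝓞 K), b ≠ ⊥ → Cp P b →
  Sm' P k → l ≠ ⊥ → ∀ (R M : ℝ) (F : ℂ → ℝ), 0 < R →
  nS np (SP K P) * (nS np S * nm k * nm l) ≤ R ^ 2 * nm b → ContDiff ℝ ∞ F →
  (∀ z, 1 < ‖z‖ → F z = 0) → (∀ z, ‖iteratedFDeriv ℝ j F z‖ ≤ M) →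
  |(∑' γ : Ga P (idS S) b (k * l), F ((em K γ.1 - 1) / R)) -
    gs P S b k l * (2 / sd K) * (nm b / (nS np S * nm k * nm l)) * (R ^ 2 * ∫ z, F z)| ≤
    C * M * (R ^ 2 * nm b / (nS np S * nm k * nm l)) ^ (1 - (j : ℝ) / 2)

/-- UNF: the diagonal and the off-diagonal terms. -/
def T_UNF : Prop := ∀ (K : Type) [Field K] [NumberField K] [IQ K] (P Z Q : ℝ) (W G H : ℝ → ℝ),
  0 < Q → 0 < Z → IsW W → IsG G → IsH H → ∀ a b k : Ideal (𝓞 K), a ≠ ⊥ → b ≠ ⊥ → Cp P a →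
  Cp P b → Sm' P k →
  Bab P Z Q W G k a b = Dab P Z Q W G a b + Oab P Z Q W G H k a b + Oab P Z Q W G H k b a

/-- LSM: the sum over the complementary divisors. -/
def T_LSM : Prop := ∀ (K : Type) [Field K] [NumberField K] [IQ K] (P y : ℝ) (W : ℝ → ℝ),
  1 ≤ y → IsW W → ∀ S ∈ DP K P y, ∀ b k : Ideal (𝓞 K), b ≠ ⊥ → Cp P b → Sm' P k →
  ∀ Q x : ℝ, 0 < Q → 0 ≤ x →
  ∑' l : NI K, gs P S b k l.1 * (Q / nm l.1) * w1 W (x / (nm l.1 * Q)) =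
    ∑ R₁ ∈ S.powerset, ∑ R₀ ∈ (SP K P).powerset, ha R₁ b * hk P k R₀ *
      (Q / (nS np R₁ * nS np R₀)) * Th K W (x / (nS np R₁ * nS np R₀ * Q))

/-- HSU: the sums of the coefficients. -/
def T_HSU : Prop := ∀ (K : Type) [Field K] [NumberField K] [IQ K] (P y : ℝ),
  1 ≤ y → ∀ S ∈ DP K P y, ∀ b k : Ideal (𝓞 K), b ≠ ⊥ → Cp P b → Sm' P k →
  (∑ R₁ ∈ S.powerset, ha R₁ b = open scoped Classical in if idS S ∣ b then nS np S else 0) ∧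
  ∑ R₀ ∈ (SP K P).powerset, hk P k R₀ = ∏ p ∈ SP K P, (1 - 1 / np p) ∧
  (∀ R₀ ∈ (SP K P).powerset, |hk P k R₀| ≤ 1) ∧
  ∑ R₁ ∈ S.powerset, ha R₁ b / nS np R₁ =
    ∏ p ∈ S, (open scoped Classical in (if b ≤ p.1 then 1 else 0) + 1 - 1 / np p)

/-- GAP: the off-diagonal sum is close to its main term. -/
def T_GAP : Prop := ∀ (K : Type) [Field K] [NumberField K] [IQ K] (P : ℝ) (W G H : ℝ → ℝ)
  (k : Ideal (𝓞 K)) (θ e : ℝ), (SP K P).Nonempty → IsW W → IsG G → IsH H → Sm' P k → Par θ e →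
  ∃ C Q₁ : ℝ, 0 ≤ C ∧ 1 ≤ Q₁ ∧ ∀ Q : ℝ, Q₁ ≤ Q → ∀ S ∈ DP K P (Q ^ θ), ∀ T ∈ DP K P (Q ^ θ),
  |(nS np S * nS np T) ^ (-(1 / 2) : ℝ) * Oab P (Q ^ (1 + e)) Q W G H k (idS S) (idS T) -
    Nab P (Q ^ (1 + e)) Q G k S (idS T) (fun x t => Thi K W * Ji G H t + Kx K W G H x t)| ≤
    C * Er Q 1 S T

/-- INF: the terms with the limit cancel. -/
def T_INF : Prop := ∀ (K : Type) [Field K] [NumberField K] [IQ K] (P : ℝ) (W G H : ℝ → ℝ)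
  (k : Ideal (𝓞 K)) (θ e : ℝ), (SP K P).Nonempty → IsW W → IsG G → IsH H → Sm' P k → Par θ e →
  ∃ C Q₁ : ℝ, 0 ≤ C ∧ 1 ≤ Q₁ ∧ ∀ Q : ℝ, Q₁ ≤ Q → ∀ S ∈ DP K P (Q ^ θ), ∀ T ∈ DP K P (Q ^ θ),
  |Nab P (Q ^ (1 + e)) Q G k S (idS T) (fun _ t => Thi K W * Ji G H t) +
    Nab P (Q ^ (1 + e)) Q G k T (idS S) (fun _ t => Thi K W * Ji G H t)| ≤ C * Er Q 1 S T

/-- RPT: the terms with the difference. -/
def T_RPT : Prop := ∀ (K : Type) [Field K] [NumberField K] [IQ K] (P : ℝ) (W G H : ℝ → ℝ)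
  (k : Ideal (𝓞 K)) (θ e : ℝ), IsW W → 0 < W1 W → IsG G → IsH H → Sm' P k → Par θ e →
  ∃ δ C Q₁ : ℝ, 0 < δ ∧ 0 ≤ C ∧ 1 ≤ Q₁ ∧ ∀ Q : ℝ, Q₁ ≤ Q → ∀ S ∈ DP K P (Q ^ θ),
  ∀ T ∈ DP K P (Q ^ θ),
  |Nab P (Q ^ (1 + e)) Q G k S (idS T) (fun x t => Kx K W G H x t) -
    (Eab P (Q ^ (1 + e)) Q W G H k S (idS T) - 1 / 2 * rk K P * W1 W * Q ^ 2 *
      sumC P fun m => sumC P fun n => open scoped Classical in
        if idS S * m = idS T * n then (nS np T * nm n)⁻¹ *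
          (G (nm m / Q ^ (1 + e)) * G (nm n / Q ^ (1 + e))) else 0)| ≤ C * Er Q δ S T

/-- TWA: the total weight. -/
def T_TWA : Prop := ∀ (K : Type) [Field K] [NumberField K] [IQ K] (P : ℝ) (W : ℝ → ℝ), IsW W →
  ∃ C : ℝ, 0 ≤ C ∧ ∀ Q : ℝ, 1 ≤ Q → |TW K P Q W - rk K P * W1 W * Q ^ 2| ≤ C * Q ^ (7 / 4 : ℝ)

/-- DAP: the diagonal term. -/
def T_DAP : Prop := ∀ (K : Type) [Field K] [NumberField K] [IQ K] (P : ℝ) (W G : ℝ → ℝ)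
  (θ e : ℝ), IsW W → IsG G → Par θ e → ∃ C δ Q₁ : ℝ, 0 ≤ C ∧ 0 < δ ∧ 1 ≤ Q₁ ∧
  ∀ Q : ℝ, Q₁ ≤ Q → ∀ S ∈ DP K P (Q ^ θ), ∀ T ∈ DP K P (Q ^ θ),
  |(nS np S * nS np T) ^ (-(1 / 2) : ℝ) * Dab P (Q ^ (1 + e)) Q W G (idS S) (idS T) -
    rk K P * W1 W * Q ^ 2 *
      sumC P fun m => sumC P fun n => open scoped Classical in
        if idS S * m = idS T * n then (nS np T * nm n)⁻¹ *
          (G (nm m / Q ^ (1 + e)) * G (nm n / Q ^ (1 + e))) else 0| ≤ C * Er Q δ S T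

/-- COM: the sum over `n`. -/
def T_COM : Prop := ∀ (K : Type) [Field K] [NumberField K] [IQ K] (P : ℝ) (W G H : ℝ → ℝ)
  (k : Ideal (𝓞 K)) (θ e : ℝ), IsW W → 0 < W1 W → IsG G → IsH H → Sm' P k → Par θ e →
  ∃ c δ C Q₁ : ℝ, 0 < δ ∧ 0 ≤ C ∧ 1 ≤ Q₁ ∧ ∀ Q : ℝ, Q₁ ≤ Q → ∀ S ∈ DP K P (Q ^ θ),
  ∀ T ∈ DP K P (Q ^ θ),
  |Eab P (Q ^ (1 + e)) Q W G H k S (idS T) - 1 / 2 * rk K P ^ 2 * W1 W * Q ^ 2 *
    (Vst (Real.log Q + c) S T / (nS np S * nS np T))| ≤ C * Er Q δ S T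

/-- GLk: Selberg's sum for the primes of norm greater than `P`. -/
def T_GLk : Prop := ∀ (K : Type) [Field K] [NumberField K] [IQ K] (P : ℝ), ∃ C : ℝ, 0 ≤ C ∧
  (∀ y : ℝ, 1 ≤ y → |GS np (AP K P y) y - rk K P * Real.log y| ≤ C) ∧
  (∀ y : ℝ, 1 ≤ y → ∑ S ∈ DP K P y, Real.log (nS np S) / fS np S ≤
    rk K P * Real.log y ^ 2 / 2 + C * (1 + Real.log y)) ∧
  ∀ X : Finset (PrI K), ∑ p ∈ X, Real.log (np p) / (np p - 1) ^ 2 ≤ C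

/-- SEL: the quadratic form. -/
def T_SEL : Prop := ∀ (K : Type) [Field K] [NumberField K] [IQ K] (P θ ε : ℝ), 0 < θ → 0 < ε →
  ∃ Q₀ : ℝ, ∀ Q : ℝ, Q₀ ≤ Q → Vq K P θ Q ≤ 1 + 1 / θ + ε

/-- SEC: the constants in the quadratic form do not matter. -/
def T_SEC : Prop := ∀ (K : Type) [Field K] [NumberField K] [IQ K] (P θ c ε : ℝ), 0 < θ → 0 < ε →
  ∃ Q₀ : ℝ, ∀ Q : ℝ, Q₀ ≤ Q →
  |rk K P * (∑ S ∈ DP K P (Q ^ θ), ∑ T ∈ DP K P (Q ^ θ), lm K P (Q ^ θ) S * lm K P (Q ^ θ) T *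
    (Vst (Real.log Q + c) S T / (nS np S * nS np T))) - Vq K P θ Q| ≤ ε

/-- ERS: the sum of the error terms. -/
def T_ERS : Prop := ∀ (K : Type) [Field K] [NumberField K] [IQ K] (P θ δ : ℝ), 0 < θ → 0 < δ →
  ∃ C : ℝ, 0 ≤ C ∧ ∀ Q : ℝ, 1 ≤ Q → ∑ S ∈ DP K P (Q ^ θ), ∑ T ∈ DP K P (Q ^ θ),
    |lm K P (Q ^ θ) S * lm K P (Q ^ θ) T| * Er Q δ S T ≤ C * Q ^ (2 - δ / 2)

/-- SMF: the second moment. -/
def T_SMF : Prop := ∀ (K : Type) [Field K] [NumberField K] [IQ K] (P : ℝ) (W G : ℝ → ℝ)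
  (k : Ideal (𝓞 K)) (θ e ε : ℝ), (SP K P).Nonempty → IsW W → 0 < W1 W → IsG G → Sm' P k →
  Par θ e → 0 < ε → ∃ Q₀ : ℝ, ∀ Q : ℝ, Q₀ ≤ Q →
  |SM P (Q ^ θ) (Q ^ (1 + e)) Q W G k - rk K P * W1 W * Q ^ 2 * Vq K P θ Q| ≤ ε * Q ^ 2

end

end Pool.Agent.H33.HH
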