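import Pool.Agent.H33.HH.TB

/-!
# Targets, part C: smaller steps
-/

set_option autoImplicit false

open NumberField Complex Filter Topology MeasureTheory
open scoped ContDiff nonZeroDivisors

namespace Pool.Agent.H33.HH

open Pool.Agent.H28.RC Pool.Agent.H37.CV

noncomputable section

/-! ### Lattices -/

/-- LA0: smooth sums over the multiples of a fixed lattice. -/
def T_LA0 : Prop := ∀ (w₁ w₂ : ℂ) (k : ℕ) (B : ℝ), (w₁ * (starRingEnd ℂ) w₂).im ≠ 0 → 2 ≤ k →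
  0 < B → ∃ C : ℝ, 0 ≤ C ∧ ∀ (α c : ℂ) (R M : ℝ) (F : ℂ → ℝ), α ≠ 0 → 0 < R → ‖α‖ ≤ B * R →
  ContDiff ℝ ∞ F → (∀ z, 1 < ‖z‖ → F z = 0) → (∀ z, ‖iteratedFDeriv ℝ k F z‖ ≤ M) →
  |(∑' z : ℤ × ℤ, F ((α * (z.1 * w₁ + z.2 * w₂) - c) / R)) -
    R ^ 2 / (‖α‖ ^ 2 * |(w₁ * (starRingEnd ℂ) w₂).im|) * ∫ z, F z| ≤
    C * M * (R / ‖α‖) ^ (2 - (k : ℝ))

/-- the number of ideals prime to the small primes of norm at most `x` -/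
def cn (K : Type) [Field K] [NumberField K] (P x : ℝ) : ℝ :=
  ({I : Ideal (𝓞 K) | I ≠ ⊥ ∧ Cp P I ∧ nm I ≤ x}.ncard : ℝ)

/-- NS1: partial summation. -/
def T_NS1 : Prop := ∀ (K : Type) [Field K] [NumberField K] [IQ K] (P : ℝ) (f f' : ℝ → ℝ),
  (∀ t, 0 < t → HasDerivAt f (f' t) t) → ContinuousOn f' (Set.Ioi 0) → ∀ x : ℝ, 1 ≤ x →
  ∑ᶠ I ∈ {I : Ideal (𝓞 K) | I ≠ ⊥ ∧ Cp P I ∧ nm I ≤ x}, f (nm I) =
    f x * cn K P x - ∫ t in Set.Ioc 1 x, f' t * cn K P t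

/-- THS: sums over the complementary divisors. -/
def T_THS : Prop := ∀ (K : Type) [Field K] [NumberField K] [IQ K] (w : ℝ → ℝ) (δ : ℝ),
  ContDiff ℝ ∞ w → 0 < δ → (∀ u, u ≤ δ → w u = 0) → (∀ u, 1 ≤ u → w u = 0) →
  ∀ A : ℕ, ∃ C : ℝ, 0 ≤ C ∧ ∀ x, 0 ≤ x →
  |(∑' l : NI K, (nm l.1)⁻¹ * w (x / nm l.1)) - rh K * ∫ u in Set.Ioi (0 : ℝ), w u / u| ≤
    C / (1 + x) ^ A

/-- THD: the derivatives of these sums. -/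
def T_THD : Prop := ∀ (K : Type) [Field K] [NumberField K] [IQ K] (w : ℝ → ℝ) (δ : ℝ),
  ContDiff ℝ ∞ w → 0 < δ → (∀ u, u ≤ δ → w u = 0) → (∀ u, 1 ≤ u → w u = 0) →
  ContDiff ℝ ∞ (fun x => ∑' l : NI K, (nm l.1)⁻¹ * w (x / nm l.1)) ∧
  ∀ x : ℝ, x * deriv (fun x => ∑' l : NI K, (nm l.1)⁻¹ * w (x / nm l.1)) x =
    ∑' l : NI K, (nm l.1)⁻¹ * (x / nm l.1 * deriv w (x / nm l.1))

/-! ### The sums over `γ` -/

section defs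

variable {K : Type} [Field K] [NumberField K]

/-- the fractional ideal `c / b` -/
def qf (c b : Ideal (𝓞 K)) : FractionalIdeal (𝓞 K)⁰ K :=
  (c : FractionalIdeal (𝓞 K)⁰ K) * ((b : FractionalIdeal (𝓞 K)⁰ K))⁻¹

open scoped Classical in
/-- the weight of `γ` -/
def Uw (P Q : ℝ) (W : ℝ → ℝ) (k B : Ideal (𝓞 K)) (γ : K) : ℝ :=
  ∑' l : NI K, if ∃ q, q ≠ ⊥ ∧ Cp P q ∧ Mu (γ - 1) B (k * l.1 * q) then
    Q * w1 W (‖em K γ - 1‖ ^ 2 * nm B / (nm k * nm l.1 * Q)) else 0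

/-- the harmonic sum -/
def hs (K : Type) [Field K] [NumberField K] (P x : ℝ) : ℝ :=
  ∑ᶠ I ∈ {I : Ideal (𝓞 K) | I ≠ ⊥ ∧ Cp P I ∧ nm I ≤ x}, (nm I)⁻¹

/-- the coefficients of the convolution -/
def gw (A B : Finset (PrI K)) : ℝ :=
  (-1) ^ B.card / (fS np A * nS np A * (fS np B * nS np B))

end defs

/-- GRA: inclusion and exclusion for the small primes. -/
def T_GRA : Prop := ∀ (K : Type) [Field K] [NumberField K] [IQ K] (P R : ℝ) (F : ℂ → ℝ)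
  (a b l : Ideal (𝓞 K)), (SP K P).Nonempty → 0 < R → (∀ z, 1 < ‖z‖ → F z = 0) → a ≠ ⊥ → b ≠ ⊥ →
  l ≠ ⊥ → ∑' γ : Ga P a b l, F ((em K γ.1 - 1) / R) =
    ∑ A ∈ (SP K P).powerset, ∑ B ∈ (SP K P).powerset, (-1) ^ (A.card + B.card) *
      ∑' γ : {γ : K // γ ∈ qf (idS A * a) b ∧ γ - 1 ∈ qf (idS B * l) b}, F ((em K γ.1 - 1) / R)

/-- GRB: intersections of cosets of fractional ideals. -/
def T_GRB : Prop := ∀ (K : Type) [Field K] [NumberField K] (b c d : Ideal (𝓞 K)), b ≠ ⊥ →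
  c ≠ ⊥ → d ≠ ⊥ →
  (c ⊔ d ∣ b → ∃ γ₀ : K, ∀ γ : K, (γ ∈ qf c b ∧ γ - 1 ∈ qf d b) ↔ γ - γ₀ ∈ qf (c ⊓ d) b) ∧
  (¬ (c ⊔ d ∣ b) → ∀ γ : K, ¬ (γ ∈ qf c b ∧ γ - 1 ∈ qf d b)) ∧ qf (c ⊓ d) b ≠ 0 ∧
  ((FractionalIdeal.absNorm (qf (c ⊓ d) b) : ℚ) : ℝ) * (nm b * nm (c ⊔ d)) = nm c * nm d

open scoped Classical in
/-- GRC: the local densities. -/
def T_GRC : Prop := ∀ (K : Type) [Field K] [NumberField K] [IQ K] (P y : ℝ), 1 ≤ y →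
  ∀ S ∈ DP K P y, ∀ b k l : Ideal (𝓞 K), b ≠ ⊥ → Cp P b → Sm' P k → l ≠ ⊥ →
  (∑ A ∈ (SP K P).powerset, ∑ B ∈ (SP K P).powerset, (-1) ^ (A.card + B.card) *
    (if idS A * idS S ⊔ idS B * (k * l) ∣ b then
      nm (idS A * idS S ⊔ idS B * (k * l)) / (nS np A * nS np B) else 0) = gs P S b k l) ∧
  ∀ A ∈ (SP K P).powerset, ∀ B ∈ (SP K P).powerset,
    idS A * idS S ⊔ idS B * (k * l) ∣ b → Disjoint A B

open scoped Classical in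
/-- UN1: the sum over the conductors for a pair of ideals. -/
def T_UN1 : Prop := ∀ (K : Type) [Field K] [NumberField K] [IQ K] (P Q : ℝ) (W : ℝ → ℝ),
  0 < Q → IsW W → ∀ A B k : Ideal (𝓞 K), A ≠ ⊥ → B ≠ ⊥ → Sm' P k →
  sumC P (fun q => W (nm q / Q) * nm q * (kap (k * q) A B : ℝ)) =
    (if A = B then TW K P Q W else 0) + ∑' γ : {γ : K // Mu γ B A}, Uw P Q W k B γ.1

/-- UN2: the symmetry. -/
def T_UN2 : Prop := ∀ (K : Type) [Field K] [NumberField K] [IQ K] (P Q : ℝ) (W : ℝ → ℝ)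
  (A B k : Ideal (𝓞 K)) (γ : K), A ≠ ⊥ → B ≠ ⊥ → Mu γ B A → Uw P Q W k A γ⁻¹ = Uw P Q W k B γ

/-- GA1: the sum over `γ`. -/
def T_GA1 : Prop := ∀ (K : Type) [Field K] [NumberField K] [IQ K] (P : ℝ) (W G H : ℝ → ℝ)
  (k : Ideal (𝓞 K)) (j : ℕ), (SP K P).Nonempty → IsW W → IsG G → IsH H → Sm' P k → 2 ≤ j →
  ∃ C : ℝ, 0 ≤ C ∧ ∀ y Q Z : ℝ, 1 ≤ y → 0 < Z → nS np (SP K P) * y ≤ Q → ∀ S ∈ DP K P y,
  ∀ b l : Ideal (𝓞 K), b ≠ ⊥ → Cp P b → l ≠ ⊥ →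
  |(∑' γ : Ga P (idS S) b (k * l), H (‖em K γ.1‖ ^ 2) *
      G (‖em K γ.1‖ ^ 2 * nm b / (nS np S * Z)) *
      w1 W (‖em K γ.1 - 1‖ ^ 2 * nm b / (nm k * nm l * Q))) -
    gs P S b k l * (2 / sd K) * (nm b / (nS np S * nm k * nm l)) *
      ∫ g : ℂ, H (‖g‖ ^ 2) * G (‖g‖ ^ 2 * nm b / (nS np S * Z)) *
        w1 W (‖g - 1‖ ^ 2 * nm b / (nm k * nm l * Q))| ≤
    C * (Q / nS np S) ^ (1 - (j : ℝ) / 2)

/-- GA2: the range of the complementary divisors. -/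
def T_GA2 : Prop := ∀ W G H : ℝ → ℝ, IsW W → IsG G → IsH H → ∃ C : ℝ, 0 ≤ C ∧
  ∀ (g : ℂ) (x t v : ℝ), 0 < x → 0 < t → 0 < v →
  H (‖g‖ ^ 2) * G (‖g‖ ^ 2 * t) * w1 W (‖g - 1‖ ^ 2 * x / v) ≠ 0 → v ≤ C * (x / t + x)

/-- GA3: the sum over the complementary divisors. -/
def T_GA3 : Prop := ∀ (K : Type) [Field K] [NumberField K] [IQ K] (P y : ℝ) (W G H : ℝ → ℝ),
  1 ≤ y → IsW W → IsG G → IsH H → ∀ S ∈ DP K P y, ∀ b k : Ideal (𝓞 K), b ≠ ⊥ → Cp P b →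
  Sm' P k → ∀ Q x t : ℝ, 0 < Q → 0 < x → 0 < t →
  ∑' l : NI K, gs P S b k l.1 * (Q / nm l.1) *
      ∫ g : ℂ, H (‖g‖ ^ 2) * G (‖g‖ ^ 2 * t) * w1 W (‖g - 1‖ ^ 2 * x / (nm l.1 * Q)) =
    ∑ R₁ ∈ S.powerset, ∑ R₀ ∈ (SP K P).powerset, ha R₁ b * hk P k R₀ *
      (Q / (nS np R₁ * nS np R₀)) *
      (Thi K W * Ji G H t + Kx K W G H (x / (nS np R₁ * nS np R₀ * Q)) t)

open scoped Classical in
/-- IN1: the sum over `n` with the limit. -/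
def T_IN1 : Prop := ∀ (K : Type) [Field K] [NumberField K] [IQ K] (P : ℝ) (G H : ℝ → ℝ)
  (θ e : ℝ), (SP K P).Nonempty → IsG G → IsH H → Par θ e → ∃ C Q₁ : ℝ, 0 ≤ C ∧ 1 ≤ Q₁ ∧
  ∀ Q : ℝ, Q₁ ≤ Q → ∀ S ∈ DP K P (Q ^ θ), ∀ T ∈ DP K P (Q ^ θ),
  |sumC P (fun n => G (nm n / Q ^ (1 + e)) *
      Ji G H (nS np T * nm n / (nS np S * Q ^ (1 + e))) *
      ∏ p ∈ S, ((if idS T * n ≤ p.1 then 1 else 0) + 1 - 1 / np p)) -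
    rk K P * Q ^ (1 + e) * (∏ p ∈ S ∩ T, (2 - 1 / np p)) *
      ∫ t in Set.Ioi (0 : ℝ), G t * Ji G H (nS np T / nS np S * t)| ≤ C * Q ^ (-3 : ℝ)

open scoped Classical in
/-- HAB: the sum of the absolute values of the coefficients. -/
def T_HAB : Prop := ∀ (K : Type) [Field K] [NumberField K] [IQ K] (P θ δ : ℝ), 0 < θ → 0 < δ →
  ∃ C : ℝ, 0 ≤ C ∧ ∀ Q : ℝ, 1 ≤ Q → ∀ S ∈ DP K P (Q ^ θ), ∀ T ∈ DP K P (Q ^ θ), ∀ x : ℝ,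
  1 ≤ x → x ≤ Q ^ 3 → ∀ X : Finset (Ideal (𝓞 K)), (∀ n ∈ X, n ≠ ⊥ ∧ nm n ≤ x) →
  ∑ n ∈ X, (nm n)⁻¹ * ∑ R ∈ S.powerset, |ha R (idS T * n)| ≤ C * Q ^ δ * nS np (S ∩ T)

/-! ### Functions with a transition -/

/-- SLP: products. -/
def T_SLP : Prop := ∀ (f f' g g' : ℝ → ℝ) (T U A B : ℝ), 0 < T → 0 < U → 0 ≤ A → 0 ≤ B →
  Sl T A f f' → Sl U B g g' →
  Sl (min T U) (2 * (1 + A) * (1 + B)) (fun t => f t * g t) (fun t => f' t * g t + f t * g' t)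

/-- SLS: rescaling. -/
def T_SLS : Prop := ∀ (f f' : ℝ → ℝ) (T A g : ℝ), 0 < T → 0 < g → 0 ≤ A → Sl T A f f' →
  Sl (T / g) A (fun t => f (g * t)) (fun t => g * f' (g * t))

/-- SLG: the weight. -/
def T_SLG : Prop := ∀ G : ℝ → ℝ, IsG G → ∃ A : ℝ, 0 ≤ A ∧ Sl 1 A G (deriv G)

/-- LGP: the logarithmic mean of a product. -/
def T_LGP : Prop := ∀ A B : ℝ, 0 ≤ A → 0 ≤ B → ∃ C : ℝ, 0 ≤ C ∧ ∀ (f f' g g' : ℝ → ℝ)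
  (T U : ℝ), 0 < T → T ≤ U → Sl T A f f' → Sl U B g g' →
  |Lg (fun u => f (T * u) * g (T * u)) - Lg (fun u => f (T * u))| ≤ C * (T / U) ^ (1 / 4 : ℝ)

open scoped Classical in
/-- CO1: the sum over `n` with the coefficients at the primes of `a`. -/
def T_CO1 : Prop := ∀ (K : Type) [Field K] [NumberField K] [IQ K] (P : ℝ), ∃ g C : ℝ, 0 ≤ C ∧
  ∀ (f f' : ℝ → ℝ) (T A y : ℝ), 0 ≤ A → 1 ≤ y → Sl T A f f' → ∀ S ∈ DP K P y, ∀ S' ∈ DP K P y,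
  ∀ R ∈ S.powerset, nS np (R \ S') ≤ T →
  |sumC (K := K) P (fun n => ha R (idS S' * n) * (f (nm n) / nm n)) -
    rk K P * fS np (R ∩ S') * (if R ⊆ S' then Real.log T + g + Lg (fun u => f (T * u)) else
      if (R \ S').card = 1 then -Real.log (nS np (R \ S')) else 0)| ≤
    C * A * 2 ^ R.card * fS np (R ∩ S') * (T / nS np (R \ S')) ^ (-(1 / 4) : ℝ)

/-! ### Selberg's sum -/

/-- GLH: the harmonic sum. -/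
def T_GLH : Prop := ∀ (K : Type) [Field K] [NumberField K] [IQ K] (P : ℝ), ∃ C : ℝ, 0 ≤ C ∧
  ∀ x : ℝ, 1 ≤ x → |hs K P x - rk K P * Real.log x| ≤ C

open scoped Classical in
/-- GLA: the convolution. -/
def T_GLA : Prop := ∀ (K : Type) [Field K] [NumberField K] [IQ K] (P y : ℝ), 1 ≤ y →
  GS np (AP K P y) y = ∑ A ∈ (AP K P y).powerset, ∑ B ∈ (AP K P y \ A).powerset, gw A B *
    if nS np A * nS np B ^ 2 ≤ y then hs K P (y / (nS np A * nS np B ^ 2)) else 0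

open scoped Classical in
/-- GLB: the coefficients of the convolution. -/
def T_GLB : Prop := ∀ (K : Type) [Field K] [NumberField K] [IQ K], ∃ C : ℝ, 0 ≤ C ∧
  ∀ X : Finset (PrI K), ∑ A ∈ X.powerset, ∑ B ∈ (X \ A).powerset, gw A B = 1 ∧
  ∑ A ∈ X.powerset, ∑ B ∈ (X \ A).powerset, |gw A B| * (nS np A * nS np B ^ 2) ^ (1 / 4 : ℝ) ≤ C

end

end Pool.Agent.H33.HH
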