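import Pool.Agent.H33.HH.TC
import Pool.Agent.H37.HH.Targets4
import Pool.Agent.H34.PS.Defs
import Pool.Agent.H56.CF.Targets

/-!
# Targets, part D: the first moment, the assembly for one field, the union over the fields
-/

set_option autoImplicit false

open NumberField Complex Filter Topology MeasureTheory
open scoped ContDiff nonZeroDivisors

namespace Pool.Agent.H33.HH

open Pool.Agent.H28.RC Pool.Agent.H37.CV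

noncomputable section

section defs

variable {K : Type} [Field K] [NumberField K]

/-- the central value exists and does not vanish -/
def NV (χ : RCC K) : Prop := ∃ Z, IsEnt χ Z ∧ Z (1 / 2) ≠ 0

/-- the character is not invariant under the automorphisms of `K` -/
def NotInv (χ : RCC K) : Prop :=
  ∃ (σ : 𝓞 K ≃+* 𝓞 K) (I : Ideal (𝓞 K)), χ.ψ (I.map σ) ≠ χ.ψ I

/-- the characters of conductor at most `x` -/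
def Al (K : Type) [Field K] [NumberField K] (x : ℝ) : Set (RCC K) := {χ | nm χ.f ≤ x}

/-- the characters of conductor at most `x` which are not invariant -/
def Ui (K : Type) [Field K] [NumberField K] (x : ℝ) : Set (RCC K) := {χ | NotInv χ ∧ nm χ.f ≤ x}

/-- the number of the characters of conductor `k q` -/
def M0 (P Q : ℝ) (W : ℝ → ℝ) (k : Ideal (𝓞 K)) : ℝ :=
  sumC P fun q => W (nm q / Q) * ((Pr K (k * q)).ncard : ℝ)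

open scoped Classical in
/-- the first moment -/
def M1 (P y Z Q : ℝ) (W G : ℝ → ℝ) (k : Ideal (𝓞 K)) : ℂ :=
  ∑' q : NI K, if Cp P q.1 then ((W (nm q.1 / Q) : ℝ) : ℂ) *
    ∑ᶠ χ ∈ Pr K (k * q.1), Bv P y Z G χ.ψ else 0

/-- the second moment -/
def M2 (P y Z Q : ℝ) (W G : ℝ → ℝ) (k : Ideal (𝓞 K)) : ℝ :=
  sumC P fun q => W (nm q / Q) * ∑ᶠ χ ∈ Pr K (k * q), ‖Bv P y Z G χ.ψ‖ ^ 2

/-- the main term -/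
def A0 (P Q : ℝ) (W : ℝ → ℝ) (k : Ideal (𝓞 K)) : ℝ :=
  hc K / wu K * phs k * rk K P * W1 W * Q ^ 2

end defs

/-! ### The first moment -/

/-- RLN: relations with the unit ideal. -/
def T_RLN : Prop := ∀ (K : Type) [Field K] [NumberField K] (m d n : Ideal (𝓞 K)), m ≠ ⊥ →
  m ≤ d → n ≠ ⊥ → Rl m d n ⊤ → ∃ ν : 𝓞 K, Ideal.span {ν} = n ∧ ν - 1 ∈ d

/-- CHB: sums of the primitive characters. -/
def T_CHB : Prop := ∀ (K : Type) [Field K] [NumberField K] [IQ K], ∃ C : ℝ, 0 ≤ C ∧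
  ∀ m n : Ideal (𝓞 K), m ≠ ⊥ → m ≠ ⊤ → n ≠ ⊥ → ‖∑ᶠ χ ∈ Pr K m, χ.ψ n‖ ≤
    C * ∑ᶠ d ∈ {d : Ideal (𝓞 K) | m ≤ d ∧ ∃ ν : 𝓞 K, Ideal.span {ν} = n ∧ ν - 1 ∈ d}, nm d

/-- DVB: the number of the divisors of an ideal. -/
def T_DVB : Prop := ∀ (K : Type) [Field K] [NumberField K] (ε : ℝ), 0 < ε → ∃ C : ℝ, 1 ≤ C ∧
  ∀ I : Ideal (𝓞 K), I ≠ ⊥ → ({d : Ideal (𝓞 K) | I ≤ d}.ncard : ℝ) ≤ C * nm I ^ ε

/-- QSB: the sum over the conductors for a fixed ideal `n ≠ 1`. -/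
def T_QSB : Prop := ∀ (K : Type) [Field K] [NumberField K] [IQ K] (P : ℝ) (k : Ideal (𝓞 K))
  (ε : ℝ), Sm' P k → 0 < ε → ∃ C : ℝ, 0 ≤ C ∧ ∀ Q : ℝ, 1 ≤ Q → ∀ n : Ideal (𝓞 K), n ≠ ⊥ →
  n ≠ ⊤ → nm n ≤ Q ^ 4 →
  ∑ᶠ q ∈ {q : Ideal (𝓞 K) | q ≠ ⊥ ∧ Cp P q ∧ nm q ≤ Q ∧ k * q ≠ ⊤},
    ‖∑ᶠ χ ∈ Pr K (k * q), χ.ψ n‖ ≤ C * Q ^ (1 + ε)

/-- HLF: sums of `N(I)^(-1/2)`. -/
def T_HLF : Prop := ∀ (K : Type) [Field K] [NumberField K], ∃ C : ℝ, 0 ≤ C ∧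
  ∀ (x : ℝ) (X : Finset (Ideal (𝓞 K))), 1 ≤ x → (∀ I ∈ X, I ≠ ⊥ ∧ nm I ≤ x) →
  ∑ I ∈ X, nm I ^ (-(1 / 2) : ℝ) ≤ C * x ^ (1 / 2 : ℝ)

/-- CSU: the sum of the coefficients. -/
def T_CSU : Prop := ∀ (K : Type) [Field K] [NumberField K] [IQ K] (P θ e : ℝ) (G : ℝ → ℝ),
  IsG G → 0 < θ → 0 < e → ∃ C : ℝ, 0 ≤ C ∧ ∀ Q : ℝ, 1 ≤ Q →
  ∑ᶠ n : Ideal (𝓞 K), |cfm P (Q ^ θ) (Q ^ (1 + e)) G n| ≤ C * Q ^ ((1 + θ + e) / 2)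

/-- FMM: the first moment. -/
def T_FMM : Prop := ∀ (K : Type) [Field K] [NumberField K] [IQ K] (P : ℝ) (W G : ℝ → ℝ)
  (k : Ideal (𝓞 K)) (θ e : ℝ), IsW W → IsG G → Sm' P k → Par θ e → ∃ C Q₁ : ℝ, 0 ≤ C ∧ 1 ≤ Q₁ ∧
  ∀ Q : ℝ, Q₁ ≤ Q → ‖M1 P (Q ^ θ) (Q ^ (1 + e)) Q W G k - ((M0 P Q W k : ℝ) : ℂ)‖ ≤
    C * Q ^ (2 - e)

/-! ### The assembly for one field -/

/-- SMM: the second moment over the primitive characters. -/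
def T_SMM : Prop := ∀ (K : Type) [Field K] [NumberField K] [IQ K] (P : ℝ) (W G : ℝ → ℝ)
  (k : Ideal (𝓞 K)) (θ e : ℝ), (SP K P).Nonempty → IsW W → 0 < W1 W → IsG G → Sm' P k →
  Par θ e → ∀ ε : ℝ, 0 < ε → ∃ Q₀ : ℝ, 1 ≤ Q₀ ∧ ∀ Q : ℝ, Q₀ ≤ Q →
  M2 P (Q ^ θ) (Q ^ (1 + e)) Q W G k ≤ (1 + 1 / θ + ε) * A0 P Q W k + ε * Q ^ 2

/-- MZ: the number of the characters. -/
def T_MZ : Prop := ∀ (K : Type) [Field K] [NumberField K] [IQ K] (W : ℝ → ℝ), IsW W →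
  0 < W1 W → ∀ ε₁ : ℝ, 0 < ε₁ → ∃ P₀ : ℝ, ∀ P : ℝ, P₀ ≤ P → ∀ k : Ideal (𝓞 K), Sm' P k →
  ∀ ε₂ : ℝ, 0 < ε₂ → ∃ Q₀ : ℝ, 1 ≤ Q₀ ∧ ∀ Q : ℝ, Q₀ ≤ Q →
  (1 - ε₁) * A0 P Q W k - ε₂ * Q ^ 2 ≤ M0 P Q W k ∧ M0 P Q W k ≤ A0 P Q W k + ε₂ * Q ^ 2

/-- NVK: the non-vanishing central values for one smooth part `k` of the conductor. -/
def T_NVK : Prop := ∀ (K : Type) [Field K] [NumberField K] [IQ K] (W : ℝ → ℝ), IsW W →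
  0 < W1 W → ∀ ε : ℝ, 0 < ε → ∃ P₀ : ℝ, ∀ P : ℝ, P₀ ≤ P → ∀ k : Ideal (𝓞 K), Sm' P k →
  ∃ Q₀ : ℝ, 1 ≤ Q₀ ∧ ∀ Q : ℝ, Q₀ ≤ Q → (1 / 2 - ε) * A0 P Q W k ≤
    sumC P fun q => W (nm q / Q) * ({χ : RCC K | χ ∈ Pr K (k * q) ∧ NV χ}.ncard : ℝ)

/-- FAC: every ideal is the product of its smooth part and its part prime to the small primes. -/
def T_FAC : Prop := ∀ (K : Type) [Field K] [NumberField K] (P : ℝ) (f : Ideal (𝓞 K)), f ≠ ⊥ →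
  ∃! p : Ideal (𝓞 K) × Ideal (𝓞 K), Sm' P p.1 ∧ p.2 ≠ ⊥ ∧ Cp P p.2 ∧ f = p.1 * p.2

/-- SMK: the sum over the smooth ideals. -/
def T_SMK : Prop := ∀ (K : Type) [Field K] [NumberField K] (P : ℝ),
  Summable fun k : {k : Ideal (𝓞 K) // Sm' P k} => (nm k.1)⁻¹

/-- SQN: the sum of the norms. -/
def T_SQN : Prop := ∀ (K : Type) [Field K] [NumberField K] [IQ K] (P : ℝ), ∃ C : ℝ, 0 ≤ C ∧
  ∀ x : ℝ, 1 ≤ x → |(∑ᶠ q ∈ {q : Ideal (𝓞 K) | q ≠ ⊥ ∧ Cp P q ∧ nm q ≤ x}, nm q) -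
    rk K P * x ^ 2 / 2| ≤ C * x ^ (7 / 4 : ℝ)

/-- UPT: the number of all the characters. -/
def T_UPT : Prop := ∀ (K : Type) [Field K] [NumberField K] [IQ K] (P ε : ℝ), 0 < ε →
  ∃ (X : Finset (Ideal (𝓞 K))) (x₀ : ℝ), (∀ k ∈ X, Sm' P k) ∧ ⊤ ∈ X ∧ 1 ≤ x₀ ∧
  ∀ x : ℝ, x₀ ≤ x → (Al K x).Finite ∧ ((Al K x).ncard : ℝ) ≤
    hc K / wu K * rk K P * (x ^ 2 / 2) * ((∑ k ∈ X, phs k / nm k ^ 2) + ε)

/-- LOW: half of all the characters of one field. -/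
def T_LOW : Prop := ∀ (K : Type) [Field K] [NumberField K] [IQ K] (ε : ℝ), 0 < ε →
  ∃ x₀ : ℝ, 1 ≤ x₀ ∧ ∀ x : ℝ, x₀ ≤ x → (Al K x).Finite ∧
    (1 / 2 - ε) * ((Al K x).ncard : ℝ) ≤ ({χ : RCC K | χ ∈ Al K x ∧ NV χ}.ncard : ℝ)

/-- LB3: the lower bound for the number of the characters. -/
def T_LB3 : Prop := ∀ (K : Type) [Field K] [NumberField K] [IQ K], ∃ c x₀ : ℝ, 0 < c ∧ 1 ≤ x₀ ∧
  ∀ x : ℝ, x₀ ≤ x → c * x ^ 2 ≤ ((Al K x).ncard : ℝ)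

/-- IV1: the conductor of an invariant character. -/
def T_IV1 : Prop := ∀ (K : Type) [Field K] [NumberField K], Module.finrank ℚ K = 2 →
  ∃ D : ℕ, 1 ≤ D ∧ ∀ χ : RCC K, ¬ NotInv χ → ∀ p : ℕ, p.Prime → ¬ p ∣ D →
  p ∣ Ideal.absNorm χ.f → p ^ 2 ∣ Ideal.absNorm χ.f

/-- IV2: numbers which are almost squarefull. -/
def T_IV2 : Prop := ∀ D : ℕ, 1 ≤ D → ∃ C : ℝ, 0 ≤ C ∧ ∀ x : ℝ, 1 ≤ x →
  ({n : ℕ | 1 ≤ n ∧ (n : ℝ) ≤ x ∧ ∀ p : ℕ, p.Prime → ¬ p ∣ D → p ∣ n → p ^ 2 ∣ n}.ncard : ℝ) ≤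
    C * x ^ (5 / 8 : ℝ)

/-- INV: the invariant characters are negligible. -/
def T_INV : Prop := ∀ (K : Type) [Field K] [NumberField K], Module.finrank ℚ K = 2 →
  ∃ C : ℝ, 0 ≤ C ∧ ∀ x : ℝ, 1 ≤ x →
  ({χ : RCC K | ¬ NotInv χ ∧ nm χ.f ≤ x}.ncard : ℝ) ≤ C * x ^ (7 / 4 : ℝ)

/-- KA: half of all the characters of one field which are not invariant. -/
def T_KA : Prop := ∀ (K : Type) [Field K] [NumberField K] [IQ K],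
  (∃ c x₀ : ℝ, 0 < c ∧ 1 ≤ x₀ ∧ ∀ x : ℝ, x₀ ≤ x → c * x ^ 2 ≤ ((Ui K x).ncard : ℝ)) ∧
  ∀ ε : ℝ, 0 < ε → ∃ x₀ : ℝ, 1 ≤ x₀ ∧ ∀ x : ℝ, x₀ ≤ x → (Ui K x).Finite ∧
    (1 / 2 - ε) * ((Ui K x).ncard : ℝ) ≤ ({χ : RCC K | χ ∈ Ui K x ∧ NV χ}.ncard : ℝ)

/-! ### The number of the characters of any field -/

/-- PR1: the values at the principal ideals. -/
def T_PR1 : Prop := ∀ (K : Type) [Field K] [NumberField K] (χ : RCC K),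
  ∃ l : (𝓞 K ⧸ χ.f)ˣ →* ℂˣ, ∀ (a : 𝓞 K) (u : (𝓞 K ⧸ χ.f)ˣ), a ≠ 0 →
  (u : 𝓞 K ⧸ χ.f) = Ideal.Quotient.mk χ.f a → χ.ψ (Ideal.span {a}) = sg K χ.S a * ((l u : ℂˣ) : ℂ)

/-- PR2: the characters with the same values at the principal ideals. -/
def T_PR2 : Prop := ∀ (K : Type) [Field K] [NumberField K] (f : Ideal (𝓞 K)) (S : Finset (RP K))
  (l : (𝓞 K ⧸ f)ˣ →* ℂˣ), f ≠ ⊥ →
  {χ : RCC K | χ.f = f ∧ χ.S = S ∧ ∀ (a : 𝓞 K) (u : (𝓞 K ⧸ f)ˣ), a ≠ 0 →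
    (u : 𝓞 K ⧸ f) = Ideal.Quotient.mk f a →
    χ.ψ (Ideal.span {a}) = sg K S a * ((l u : ℂˣ) : ℂ)}.Finite ∧
  {χ : RCC K | χ.f = f ∧ χ.S = S ∧ ∀ (a : 𝓞 K) (u : (𝓞 K ⧸ f)ˣ), a ≠ 0 →
    (u : 𝓞 K ⧸ f) = Ideal.Quotient.mk f a →
    χ.ψ (Ideal.span {a}) = sg K S a * ((l u : ℂˣ) : ℂ)}.ncard ≤ classNumber K

/-- PR3: characters of a finite abelian group with a given value. -/
def T_PR3 : Prop := ∀ (G : Type) [CommGroup G] [Finite G] (g : G) (z : ℂˣ) (j : ℕ), 1 ≤ j →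
  (∀ i, 0 < i → i < j → g ^ i ≠ 1) → {l : G →* ℂˣ | l g = z}.Finite ∧
  j * {l : G →* ℂˣ | l g = z}.ncard ≤ Nat.card G

/-- PRB: the number of the characters of conductor `f`. -/
def T_PRB : Prop := ∀ (K : Type) [Field K] [NumberField K] (f : Ideal (𝓞 K)) (η : (𝓞 K)ˣ)
  (j : ℕ), f ≠ ⊥ → 1 ≤ j → (∀ i, 0 < i → i < j → ((η ^ i : (𝓞 K)ˣ) : 𝓞 K) - 1 ∉ f) →
  (Pr K f).Finite ∧ j * (Pr K f).ncard ≤
    2 ^ InfinitePlace.nrRealPlaces K * classNumber K * Ideal.absNorm f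

/-! ### Uniform bounds -/

/-- fundamental discriminants -/
def IsFund (d : ℤ) : Prop :=
  (d % 4 = 1 ∧ Squarefree d ∧ d ≠ 1) ∨
    (4 ∣ d ∧ Squarefree (d / 4) ∧ ((d / 4) % 4 = 2 ∨ (d / 4) % 4 = 3))

open scoped Classical in
/-- the fundamental discriminants `d` with `|d| ≤ X` -/
def Fd' (X : ℝ) : Finset ℤ := (Finset.Icc (-⌊X⌋) ⌊X⌋).filter IsFund

/-- the squarefree kernel of a fundamental discriminant -/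
def ker (d : ℤ) : ℤ := if d % 4 = 1 then d else d / 4

/-- RCD: sums of the convolution of `1` and a quadratic character. -/
def T_RCD : Prop := ∀ d : ℤ, IsFund d →
  (∀ e : ℕ, 0 ≤ ∑ t ∈ e.divisors, Pool.Agent.H34.PS.chi (ker d) t) ∧
  ∀ y : ℕ, ∑ e ∈ Finset.Icc 1 y, ∑ t ∈ (Pool.Agent.H34.PS.op e).divisors,
    Pool.Agent.H34.PS.chi (ker d) t ≤ 2 * (y : ℝ) * (2 + Real.log (4 * |(d : ℝ)|))

/-- RTB: the number of the roots of a quadratic congruence. -/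
def T_RTB : Prop := ∀ d : ℤ, IsFund d → ∀ A : ℕ, 1 ≤ A →
  (Pool.Agent.H56.CF.rts A d : ℝ) ≤
    2 * ∑ t ∈ (Pool.Agent.H34.PS.op A).divisors, Pool.Agent.H34.PS.chi (ker d) t

/-- IDB: the number of the ideals, uniformly in the field. -/
def T_IDB : Prop := ∃ C : ℝ, 0 ≤ C ∧ ∀ (K : Type) [Field K] [NumberField K] (x : ℝ),
  Module.finrank ℚ K = 2 → IsFund (discr K) → 1 ≤ x →
  ({I : Ideal (𝓞 K) | I ≠ ⊥ ∧ nm I ≤ x}.ncard : ℝ) ≤ C * x * (1 + Real.log |(discr K : ℝ)|)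

/-- CNB: the class number. -/
def T_CNB : Prop := ∃ C : ℝ, 0 ≤ C ∧ ∀ (K : Type) [Field K] [NumberField K],
  Module.finrank ℚ K = 2 → IsFund (discr K) →
  hc K ≤ C * Real.sqrt |(discr K : ℝ)| * (1 + Real.log |(discr K : ℝ)|)

/-- FDS: fundamental discriminants are large. -/
def T_FDS : Prop := ∀ d : ℤ, IsFund d → 3 ≤ |(d : ℝ)| ∧ (∀ X : ℝ, 0 ≤ X → (d ∈ Fd' X ↔ |(d : ℝ)| ≤ X))

/-- TSD: the sum over the large discriminants. -/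
def T_TSD : Prop := ∃ C : ℝ, 0 ≤ C ∧ ∀ (S : Finset ℤ) (Y : ℝ), 1 ≤ Y →
  (∀ d ∈ S, Y < |(d : ℝ)|) → ∑ d ∈ S, |(d : ℝ)| ^ (-(5 / 4) : ℝ) ≤ C * Y ^ (-(1 / 4) : ℝ)

/-- TAI: the large discriminants are negligible. -/
def T_TAI : Prop := ∃ C : ℝ, 0 ≤ C ∧ ∀ (K : ℤ → Type) [∀ d, Field (K d)]
  [∀ d, NumberField (K d)], (∀ d, IsFund d → Module.finrank ℚ (K d) = 2 ∧ discr (K d) = d) →
  ∀ X Y : ℝ, 1 ≤ X → 1 ≤ Y →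
  (∀ d ∈ Fd' X, (Al (K d) (X / |(d : ℝ)|)).Finite) ∧
  ∑ d ∈ (Fd' X).filter (fun d : ℤ => Y < |(d : ℝ)|), ((Al (K d) (X / |(d : ℝ)|)).ncard : ℝ) ≤
    C * X ^ 2 * Y ^ (-(1 / 4) : ℝ)

/-- REA: the real quadratic fields are negligible. -/
def T_REA : Prop := ∀ (K : Type) [Field K] [NumberField K], Module.finrank ℚ K = 2 →
  0 < discr K → ∀ ε : ℝ, 0 < ε → ∃ x₀ : ℝ, 1 ≤ x₀ ∧ ∀ x : ℝ, x₀ ≤ x →
  (Al K x).Finite ∧ ((Al K x).ncard : ℝ) ≤ ε * x ^ 2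

/-- HAL: half of all, the union over all the fundamental discriminants. -/
def T_HAL : Prop := ∀ (K : ℤ → Type) [∀ d, Field (K d)] [∀ d, NumberField (K d)],
  (∀ d, IsFund d → Module.finrank ℚ (K d) = 2 ∧ discr (K d) = d) →
  ∀ ε : ℝ, 0 < ε → ∃ X₀ : ℝ, ∀ X : ℝ, X₀ ≤ X →
  (∀ d ∈ Fd' X, (Ui (K d) (X / |(d : ℝ)|)).Finite) ∧
  (1 / 2 - ε) * ∑ d ∈ Fd' X, ((Ui (K d) (X / |(d : ℝ)|)).ncard : ℝ) ≤
    ∑ d ∈ Fd' X, ({χ : RCC (K d) | χ ∈ Ui (K d) (X / |(d : ℝ)|) ∧ NV χ}.ncard : ℝ)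

end

end Pool.Agent.H33.HH
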